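import Pool.Agent.Lib.MP_fecf72_lc.HM.Lim

namespace Pool.Agent.Lib.MP_fecf72_lc.HM

open Set Filter

/-- The forcing at level `α` is bounding. -/
def Bdd (α : Lv) : Prop :=
  ∀ f : Set U0 → ℕ → ℕ, Ms univ f → ∀ p ∈ PP α, ∃ q g, RR α q p ∧
    Frc (RR α) q fun G => ∀ n, f G n ≤ (g : ℕ → ℕ) n

theorem bdd_zero : Bdd ((0 : U0) : Lv) := by
  intro f hf p hp
  choose q g h1 h2 using fun n => (hf.app n).dec_val (fo _) hp
  refine ⟨p, g, hp, frc_all fun n => ?_⟩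
  have := h2 n
  rw [eq_top_of_zero ((fo _).l (h1 n)), ← eq_top_of_zero hp] at this
  exact this.mono fun _ _ _ k => k.le

theorem bdd_succ {β : U0} (hb : Bdd β) : Bdd (sc β) := by
  intro f hf p hp
  let D : ℕ → Set U0 := fun n => {r | ∃ m, Frc (RR (sc β)) r fun G => f G n = m}
  obtain ⟨N, st, pr, hc, ⟨-, b2, -, b4, b5, -⟩, hβ, hN, hD⟩ := (club_step.and (club_proper.and
    (club_countable.and (club_basic.and ((clo0 β).and ((clo0 p).and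
      (club_all fun n => clo0 (D n)))))))).exists
  obtain ⟨u, hu⟩ := exists_enum hc (· ∈ PP (sc β)) (top_mem _) b5
  obtain ⟨i0, rfl⟩ := (hu p).1 ⟨hp, hN⟩
  obtain ⟨q0, h1, h2⟩ := pr β (b2 β hβ) _ (PP_rs hp (lt_sc β).le) (b4 _ _ hN (b2 β hβ))
  obtain ⟨q', k1, k2, k3, bd, k4, k5⟩ := st β hβ u hu D (fun n => ⟨hD n, fun r hr =>
    let ⟨q, m, a1, a2⟩ := (hf.app n).dec_val (fo _) hr; ⟨q, ⟨m, a2⟩, a1⟩⟩) q0 ((fo _).l h1) h2
    (fun _ => i0) (ms_const _) (frc_mem h1)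
  choose! v hv using fun n i (h : u i ∈ D n) => h
  have mg : ∀ n, Ms (PP β) fun G => rmx (v n) (bd G n) := fun n =>
    (k4.app n).comp (measurable_of_countable _)
  obtain ⟨q1, g, c1, c2⟩ := hb (fun G n => rmx (v n) (bd G n)) (ms_pi mg).univ q0 ((fo _).l h1)
  obtain ⟨t, c3, -, c4, -⟩ := exists_glue (lt_sc β).le k1 (k2 ▸ c1)
  obtain ⟨t', c5, c6⟩ := (k3.le c3).compat (fo _) ((fo _).l c3)
  refine ⟨t', g, c6, Frc.le (frc_all fun n => ?_) c5⟩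
  have c7 := Frc.lift' (lt_sc β).le ((fo _).l c3) ((mg n).le (ms_const (g n)))
    (c4 ▸ c2.mono fun _ _ _ k => k n)
  have c8 : Frc (RR (sc β)) t fun G => ∀ i, u i ∈ D n → u i ∈ G → f G n = v n i :=
    frc_all fun i => by
      by_cases h : u i ∈ D n
      · exact Frc.of_ev (Eventually.mono (hv n i h) fun _ k _ => k)
      · exact frc_of_all fun _ _ _ k => (h k).elim
  exact ((c7.and c8).and ((k5 n).le c3)).mono fun G _ _ ⟨⟨a1, a2⟩, i, a3, a4, a5⟩ =>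
    (a2 i a5 a4).trans_le ((le_rmx (v n) a3).trans a1)

theorem RR_glue_le {δ γ : Lv} {r p p' : U0} (hγ : γ ≤ δ) (h1 : RR δ r p) (hp : p' ∈ PP δ)
    (h2 : RR γ (rs r γ) (rs p' γ)) (h3 : ∀ β : U0, ¬ (β : Lv) < γ → dec p' β = dec p β) :
    RR δ r p' := by
  refine RR_iff.2 ⟨(fo δ).l h1, hp, fun β hβ => ?_⟩
  by_cases hc : (β : Lv) < γ
  · exact (lec_congr (fun δ hδ => dec_rs_lt ((WithTop.coe_le_coe.2 hδ).trans_lt hc))
      (dec_rs_lt hc)).1 ((RR_iff.1 h2).2.2 β hc)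
  · exact (lec_congr (fun _ _ => rfl) (h3 β hc)).2 ((RR_iff.1 h1).2.2 β hβ)

section
variable {δ : Lv} {f : Set U0 → ℕ → ℕ}

/-- The function `h` bounds an interpretation of `f` below `p`. -/
def Gd (δ : Lv) (f : Set U0 → ℕ → ℕ) (γ : Lv) (p : U0) (h : ℕ → ℕ) (G : Set U0) : Prop :=
  ∀ i, ∃ s ∈ G, ∃ r, RR δ r p ∧ s = rs r γ ∧ Frc (RR δ) r fun G => ∀ k < i, f G k ≤ h k

theorem gd_exists (hf : Ms univ f) {γ : Lv} (hγ : γ ≤ δ) (hb : Bdd γ) {p : U0} (hp : p ∈ PP δ)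
    {i0 : ℕ} {h0 : ℕ → ℕ} (h1 : Frc (RR δ) p fun G => ∀ k < i0, f G k ≤ h0 k) :
    ∃ p' h, RR δ p' p ∧ (∀ k < i0, h k = h0 k) ∧ Frc (RR γ) (rs p' γ) (Gd δ f γ p' h) := by
  let Re : List ℕ → Set U0 → Prop := fun l G => ∃ s ∈ G, ∃ r, RR δ r p ∧ s = rs r γ ∧
    Frc (RR δ) r fun G => ∀ k m, l[k]? = some m → f G k ≤ m
  have mR : ∀ l, Ms univ (Re l) := fun l => ms_open' _ fun _ _ => trivial
  obtain ⟨s, H, a1, a2⟩ := hb (fun G c => sInf {m | Re (Denumerable.ofNat (List ℕ) c ++ [m]) G})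
    (ms_pi fun c => ms_sInf fun m => mR _) _ (PP_rs hp hγ)
  have a3 : Frc (RR γ) s fun G => ∀ l, Re l G → ∃ m, Re (l ++ [m]) G := frc_all fun l => by
    refine frc_of_dense (fo γ) fun t ht => ?_
    by_cases hc : ∃ r, RR δ r p ∧ (Frc (RR δ) r fun G => ∀ k m, l[k]? = some m → f G k ≤ m) ∧
      ∃ t', RR γ t' t ∧ RR γ t' (rs r γ)
    · obtain ⟨r, b1, b2, t', b3, b4⟩ := hc
      obtain ⟨r1, b5, -, b6, -⟩ := exists_glue hγ ((fo δ).l b1) b4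
      obtain ⟨r2, m, b7, b8⟩ := (hf.app l.length).dec_val (fo δ) ((fo δ).l b5)
      refine ⟨rs r2 γ, (fo γ).tr (b6 ▸ RR_rs b7 hγ) b3, frc_of_all fun G _ hG _ =>
        ⟨m, _, hG, r2, (fo δ).tr b7 ((fo δ).tr b5 b1), rfl,
          ((b2.le ((fo δ).tr b7 b5)).and b8).mono fun G _ _ c k m' hk => ?_⟩⟩
      rcases lt_or_ge k l.length with h | h
      · exact c.1 k m' (by rwa [List.getElem?_append_left h] at hk)
      · rw [List.getElem?_append_right h, List.getElem?_singleton] at hk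
        split_ifs at hk with h'
        obtain rfl : k = l.length := by omega
        exact c.2.trans_le (Option.some.inj hk).le
    · refine ⟨t, (fo γ).l ht, frc_of_all fun G hG htG ⟨s', b1, r, b2, b3, b4⟩ => ?_⟩
      obtain ⟨t', -, b5⟩ := hG.2 t htG s' b1
      exact (hc ⟨r, b2, b4, t', b3 ▸ b5⟩).elim
  let L : ℕ → List ℕ := fun n => Nat.rec [] (fun _ l => l ++ [H (Encodable.encode l)]) n
  have hL : ∀ n, (L n).length = n ∧ ∀ k < n, (L n)[k]? = some (H (Encodable.encode (L k))) := by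
    intro n
    induction n with
    | zero => exact ⟨rfl, fun k hk => absurd hk (Nat.not_lt_zero _)⟩
    | succ n ih =>
      have e : L (n + 1) = L n ++ [H (Encodable.encode (L n))] := rfl
      refine ⟨by rw [e, List.length_append, ih.1]; rfl, fun k hk => ?_⟩
      rcases lt_or_ge k n with h | h
      · rw [e, List.getElem?_append_left (ih.1.symm ▸ h), ih.2 k h]
      · obtain rfl : k = n := by omega
        rw [e, List.getElem?_append_right ih.1.le, ih.1]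
        simp
  have a4 : Frc (RR γ) s fun G => ∀ n, Re (L n) G := by
    refine ((a2.and a3).and (frc_mem a1)).mono fun G _ _ c n => ?_
    induction n with
    | zero => exact ⟨_, c.2, p, hp, rfl, frc_of_all fun _ _ _ k m hk => by simp [L] at hk⟩
    | succ n ih =>
      have c1 := c.1.1 (Encodable.encode (L n))
      rw [Denumerable.ofNat_encode] at c1
      obtain ⟨s', c2, r, c3, c4, c5⟩ := Nat.sInf_mem (s := {m | Re (L n ++ [m]) G}) (c.1.2 _ ih)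
      refine ⟨s', c2, r, c3, c4, c5.mono fun G' _ _ c6 k m hk => ?_⟩
      have e : L (n + 1) = L n ++ [H (Encodable.encode (L n))] := rfl
      rcases lt_or_ge k (L n).length with h | h
      · rw [e, List.getElem?_append_left h] at hk
        exact c6 k m (by rwa [List.getElem?_append_left h])
      · rw [e, List.getElem?_append_right h, List.getElem?_singleton] at hk
        split_ifs at hk with h'
        exact (c6 k _ (by rw [List.getElem?_append_right h, List.getElem?_singleton, if_pos h'])).trans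
          (c1.trans (Option.some.inj hk).le)
  obtain ⟨p', b1, -, b2, b3⟩ := exists_glue hγ hp a1
  refine ⟨p', fun k => if k < i0 then h0 k else H (Encodable.encode (L k)), b1,
    fun k hk => if_pos hk, b2 ▸ a4.mono fun G hG hs c i => ?_⟩
  obtain ⟨s', c2, r, c3, rfl, c5⟩ := c i
  obtain ⟨t, c6, c7, c8⟩ := hG.2 s hs _ c2
  obtain ⟨r', c9, -, c10, -⟩ := exists_glue hγ ((fo δ).l c3) c8
  have c11 := (fo δ).tr c9 c3
  refine ⟨t, c6, r', RR_glue_le hγ c11 ((fo δ).l b1) (by rwa [c10, b2]) b3, c10.symm,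
    ((c5.le c9).and (h1.le c11)).mono fun G' _ _ c k hk => ?_⟩
  dsimp only
  split_ifs with h
  exacts [c.2 k h, c.1 k _ ((hL i).2 k hk)]

/-- The next condition and bound. -/
def Nx (δ : Lv) (f : Set U0 → ℕ → ℕ) (γ' : Lv) (p : U0) (h : ℕ → ℕ) (i : ℕ) (p' : U0)
    (h' : ℕ → ℕ) : Prop :=
  RR δ p' p ∧ (Frc (RR δ) p' fun G => ∀ k < i, f G k ≤ h k) ∧ (∀ k < i, h' k = h k) ∧
    Frc (RR γ') (rs p' γ') (Gd δ f γ' p' h')

theorem nx_exists (hf : Ms univ f) {γ γ' : Lv} (hγ : γ ≤ δ) (hγ' : γ' ≤ δ) (hb : Bdd γ)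
    (hb' : Bdd γ') {p : U0} {h : ℕ → ℕ} {t0 : U0} (h0 : t0 ∈ PP γ)
    (h1 : Frc (RR γ) t0 (Gd δ f γ p h)) : ∃ t, RR γ t t0 ∧ ∃ v : ℕ → ℕ, ∀ i, Frc (RR γ) t
      fun G => ∃ s ∈ {s | ∃ z : U0 × (ℕ → ℕ), s = rs z.1 γ ∧ Nx δ f γ' p h i z.1 z.2 ∧
        ∀ k, i ≤ k → z.2 k ≤ v k}, s ∈ G := by
  choose e he1 he2 using fun i => mix (fo γ) fun a h' =>
    ∃ p', RR γ a (rs p' γ) ∧ Nx δ f γ' p h i p' h'
  obtain ⟨t, v, a1, a2⟩ := hb (fun G k => rmx (fun i => e i G k) k)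
    (ms_pi fun k => meas_rmx (measurable_pi_lambda _ fun i => ((he1 i).univ.app k))
      measurable_const) t0 h0
  refine ⟨t, a1, v, fun i => frc_of_dense (fo γ) fun r hr => ?_⟩
  obtain ⟨G, hG, b1, b2⟩ := (h1.le ((fo γ).tr hr a1)).exists (fo γ) ((fo γ).l hr)
  obtain ⟨_, b3, r0, b4, rfl, b5⟩ := b2 i
  obtain ⟨s1, -, b6, b7⟩ := hG.2 r b1 _ b3
  obtain ⟨r1, b8, -, b9, -⟩ := exists_glue hγ ((fo δ).l b4) b7
  obtain ⟨p', h', c1, c2, c3⟩ := gd_exists hf hγ' hb' ((fo δ).l b8) (b5.le b8)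
  have c4 := RR_rs c1 hγ
  obtain ⟨s2, a, y, c5, c6, ⟨p'', c7, c8⟩, c9⟩ := he2 i _ h' ((fo γ).l c4)
    ⟨p', (fo γ).l c4, (fo δ).tr c1 ((fo δ).tr b8 b4), b5.le ((fo δ).tr c1 b8), c2, c3⟩
  have c10 : RR γ s2 r := (fo γ).tr c5 ((fo γ).tr (b9 ▸ c4) b6)
  refine ⟨s2, c10, ((c9.and (a2.le ((fo γ).tr c10 hr))).and (frc_mem ((fo γ).tr c6 c7))).mono
    fun G _ _ k => ⟨_, ⟨(p'', y), rfl, c8, fun j hj => ?_⟩, k.2⟩⟩
  exact (k.1.1 ▸ le_rmx (fun i => e i G j) hj : y j ≤ _).trans (k.1.2 j)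

end

theorem bdd_limit {δ : Lv} (h0 : ((0 : U0) : Lv) < δ) (hδ : ∀ β : U0, (β : Lv) < δ → sc β < δ)
    (hb : ∀ γ < δ, Bdd γ) : Bdd δ := by
  intro f hf p0 hp0
  obtain ⟨p1, h1, a1, -, a2⟩ := gd_exists hf h0.le (hb _ h0) hp0 (i0 := 0) (h0 := fun _ => 0)
    (frc_of_all fun _ _ _ k hk => absurd hk (Nat.not_lt_zero _))
  let A' : ℕ → Lv × Lv → U0 → (ℕ → ℕ) × (ℕ → ℕ) → Set U0 := fun i g p w =>
    {s | ∃ z : U0 × (ℕ → ℕ), s = rs z.1 g.1 ∧ Nx δ f g.2 p w.1 i z.1 z.2 ∧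
      ∀ k, i ≤ k → z.2 k ≤ w.2 k}
  obtain ⟨N, pel, hc, ⟨b1, b2, b3, b4, b5, b6, b7⟩, sp, mt, hp1, hh1, cp, cp', cp'', c1, s1, c2,
    s2⟩ :=
    (club_pel.and (club_countable.and (club_basic.and (club_supp.and (club_meet2.and
    ((clo0 p1).and ((clo0 h1).and ((clo_pair Lv Lv).and ((clo_pair (ℕ → ℕ) (ℕ → ℕ)).and
    ((clo_pair U0 (ℕ → ℕ)).and
    ((clo3' fun (g : Lv × Lv) (p : U0) (h : ℕ → ℕ) =>
      {t | ∃ v, ∀ i, Frc (RR g.1) t fun G => ∃ s ∈ A' i g p (h, v), s ∈ G}).and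
    ((sk4 fun (g : Lv × Lv) (p : U0) (h : ℕ → ℕ) (t : U0) (v : ℕ → ℕ) =>
      ∀ i, Frc (RR g.1) t fun G => ∃ s ∈ A' i g p (h, v), s ∈ G).and
    ((club_all fun i => clo3' (A' i)).and
    (club_all fun i => sk4 fun (g : Lv × Lv) (p : U0) (w : (ℕ → ℕ) × (ℕ → ℕ)) (s : U0)
      (z : U0 × (ℕ → ℕ)) => s = rs z.1 g.1 ∧ Nx δ f g.2 p w.1 i z.1 z.2 ∧
        ∀ k, i ≤ k → z.2 k ≤ w.2 k)))))))))))))).exists
  obtain ⟨γ, e0, k1, k2, k3⟩ := exists_cof hc (fun β k => b2 _ (b3 β k)) b7 hδ h0 (b2 0 b6)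
  obtain ⟨u, hu⟩ := exists_enum hc (· ∈ PP δ) (top_mem _) b5
  have hu' := fun i => (hu _).2 ⟨i, rfl⟩
  obtain ⟨i0, rfl⟩ := (hu p1).1 ⟨(fo δ).l a1, hp1⟩
  obtain ⟨w, hw⟩ := ((countable_In (ℕ → ℕ) hc)).exists_eq_range ⟨h1, hh1⟩
  let g : ℕ → ℕ := fun k => max (h1 k) (rmx (fun n => w n k) k)
  have hg : ∀ v : ℕ → ℕ, In N v → Lst v g := fun v hv => by
    obtain ⟨n, rfl⟩ : v ∈ range w := hw ▸ hv
    exact ⟨n, fun k hk => (le_rmx (fun n => w n k) hk).trans (le_max_right _ _)⟩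
  obtain ⟨q', c3, -, c4⟩ := lim (N := N) k1 (fun n => (k2 n).1.le)
    (fun n p hp => b4 p _ hp (k2 n).2) (fun p hp hN β hβ he => k3 β (sp δ p hp hN β he) hβ)
    (fun n => pel _ (k2 _).2 _ (k1 (Nat.le_succ n)) (k2 n).2) hu'
    (K := fun n => {p | (Frc (RR δ) p fun G => ∀ k < n, f G k ≤ g k) ∧ ∃ h : ℕ → ℕ, In N h ∧
      (∀ k, h k ≤ g k) ∧ Frc (RR (γ n)) (rs p (γ n)) (Gd δ f (γ n) p h)}) (by
      rintro n i ⟨-, h, d1, d2, d3⟩ G hG hN hp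
      have hγ := (cp (γ n) (γ (n + 1))).2 ⟨(k2 _).2, (k2 _).2⟩
      have hR := b1 _ (k2 n).2
      obtain ⟨t, d4, d5, d6⟩ := mt _ _ G _ (fo _) hR (c1 _ _ h hγ (hu' i).2 d1)
        (b4 _ _ (hu' i).2 (k2 n).2) hG hN hp (frc_meet (fo _) fun r hr => by
          obtain ⟨t, e1, e2⟩ := nx_exists hf (k2 n).1.le (k2 (n + 1)).1.le (hb _ (k2 _).1)
            (hb _ (k2 _).1) ((fo _).l hr) (d3.le hr)
          exact ⟨t, e2, t, e1, (fo _).l e1⟩)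
      obtain ⟨v, d7, d8⟩ := s1 _ _ h t hγ (hu' i).2 d1 d6 d4
      obtain ⟨k0, hk0⟩ := hg v d7
      have hw := (cp' h v).2 ⟨d1, d7⟩
      obtain ⟨s, e1, e2, e3⟩ := mt _ _ G t (fo _) hR (c2 (max k0 (n + 1)) _ _ _ hγ (hu' i).2 hw) d6
        hG hN d5 (d8 _)
      obtain ⟨⟨p', h'⟩, e4, rfl, ⟨e5, e6, e7, e8⟩, e9⟩ := s2 _ _ _ _ s hγ (hu' i).2 hw e3 e1
      obtain ⟨j, rfl⟩ := (hu p').1 ⟨(fo _).l e5, ((cp'' _ _).1 e4).1⟩
      refine ⟨j, ⟨e6.mono fun G _ _ c k hk => (c k (hk.trans_le (le_max_right _ _))).trans (d2 k),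
        h', ((cp'' _ _).1 e4).2, fun k => ?_, e8⟩, e5, e2⟩
      rcases lt_or_ge k (max k0 (n + 1)) with hk | hk
      · exact (e7 k hk).trans_le (d2 k)
      · exact (e9 k hk).trans (hk0 k ((le_max_left _ _).trans hk)))
    (q0 := top) (top_mem _) (e0 ▸ genN_zero b5) (ι0 := fun _ => i0) (ms_const _)
    (frc_of_all fun G _ hG => ⟨by rwa [e0, rs_zero (hu' i0).1],
      frc_of_all fun _ _ _ k hk => absurd hk (Nat.not_lt_zero _), h1, hh1,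
        fun k => le_max_left _ _, e0 ▸ a2⟩)
  obtain ⟨q, c5, c6⟩ := (c4.mono fun _ _ _ k => k.1).compat (fo δ) c3
  refine ⟨q, g, (fo δ).tr c6 a1, Frc.le (frc_all fun n => ?_) c5⟩
  have c8 : Frc (RR δ) q' fun G => ∀ j, (Frc (RR δ) (u j) fun G => ∀ k < n + 1, f G k ≤ g k) →
      u j ∈ G → f G n ≤ g n := frc_all fun j => by
    by_cases h : Frc (RR δ) (u j) fun G => ∀ k < n + 1, f G k ≤ g k
    · exact Frc.of_ev (Eventually.mono h fun _ k _ k' => k k' n (Nat.lt_succ_self n))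
    · exact frc_of_all fun _ _ _ k => (h k).elim
  exact (c4.and c8).mono fun G _ _ k => let ⟨j, j1, j2⟩ := k.1.2 (n + 1); k.2 j j2.1 j1

theorem bdd (α : Lv) : Bdd α := by
  induction α using WellFoundedLT.induction with
  | ind α ih =>
  rcases (zero_le_lv α).eq_or_lt with rfl | h
  · exact bdd_zero
  rcases lv_cases α with ⟨β, rfl⟩ | k
  · exact bdd_succ (ih _ (lt_sc β))
  · exact bdd_limit h k ih

end Pool.Agent.Lib.MP_fecf72_lc.HM
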