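import Pool.Agent.Lib.MP_fecf72_lc.Defs

namespace Pool.Agent.Lib.MP_fecf72_lc.HM

/-- In `M`, the space `Y` has Menger's property: from every sequence of relatively open covers
one can select finite subfamilies that together cover. -/
def MengerIn (M : Set V) (Y : Set ℝ) : Prop :=
  ∀ C : ℕ → Set (Set ℝ), seqC (fun n => famC (C n)) ∈ M →
    (∀ n, (∀ B ∈ C n, ∃ O, IsOpen O ∧ B = Y ∩ O) ∧ ⋃₀ C n = Y) →
    ∃ F : ℕ → Set (Set ℝ), seqC (fun n => famC (F n)) ∈ M ∧ (∀ n, (F n).Finite ∧ F n ⊆ C n) ∧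
      ⋃₀ (⋃ n, F n) = Y

end Pool.Agent.Lib.MP_fecf72_lc.HM
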