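import Pool.Agent.Lib.MP_fecf72_lc.HM.Bdd

namespace Pool.Agent.Lib.MP_fecf72_lc.HM

open Set Filter

section
variable {U : Type 1}

/-- The condition forces that the image of `X` eventually dominates the ground functions. -/
def Dom (R : U → U → Prop) (X : Set (U × Nam U)) (q : U) (Ψ : Set U → Cs → ℕ → ℕ) : Prop :=
  ∀ h s, R s q → ∃ x ∈ X, ∃ s', R s' s ∧ R s' x.1 ∧ Frc R s' fun G => LL h (Ψ G) (ev x.2 G)

/-- The condition forces that the image of `X` everywhere dominates the ground functions. -/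
def EDom (R : U → U → Prop) (X : Set (U × Nam U)) (q : U) (Ψ : Set U → Cs → ℕ → ℕ) : Prop :=
  ∀ (h : ℕ → ℕ) s, R s q → ∃ x ∈ X, ∃ s', R s' s ∧ R s' x.1 ∧
    Frc R s' fun G => LC (Ψ G) (ev x.2 G) ∧ ∀ n, h n ≤ Ψ G (ev x.2 G) n

end

theorem Frc.down {α γ : Lv} (h : γ ≤ α) {s : U0} (hs : s ∈ PP γ) {φ : Set U0 → Prop}
    (hm : Ms (PP γ) φ) (k : Frc (RR α) s φ) : Frc (RR γ) s φ := by
  by_contra hc
  obtain ⟨q, h1, h2⟩ := hm.of_not_frc (fo γ) hc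
  have hq := (fo γ).l h1
  have := Frc.lift' h (PP_mono h hq) hm.not (by rwa [rs_self hq le_rfl])
  exact ((this.and (k.le (RR_mono h h1))).mono fun _ _ _ k => k.1 k.2).elim (fo α) (PP_mono h hq)

/-- The generic branch at coordinate `β`. -/
def gbr (β : U0) (G : Set U0) (t : Nd) : Prop :=
  ∃ s ∈ G, s ∈ PP (sc β) ∧ Frc (RR β) (rs s β) fun G => ∀ σ, (qv (dec s β) G).2.1 σ → t <+: σ.1

theorem ms_gbr (β : U0) : Ms (PP (sc β)) (gbr β) := ms_pi fun _ => ms_open' _ fun _ h => h.1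

theorem gbr_aux {β s s' : U0} {t : Nd} (h : RR (sc β) s' s)
    (k : Frc (RR β) (rs s β) fun G => ∀ σ, (qv (dec s β) G).2.1 σ → t <+: σ.1) :
    Frc (RR β) (rs s' β) fun G => ∀ σ, (qv (dec s' β) G).2.1 σ → t.length ≤ σ.1.length →
      t <+: σ.1 :=
  ((h.lec (lt_sc β)).and (k.le (RR_rs h (lt_sc β).le))).mono fun _ _ _ a σ h1 h2 =>
    let ⟨τ, h3, h4⟩ := a.1 σ h1; List.prefix_of_prefix_length_le (a.2 τ h3) h4 h2

theorem gbr_chain {β : U0} {G : Set U0} (hG : IsF (RR (sc β)) G) {t t' : Nd} (h : gbr β G t)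
    (k : gbr β G t') : t <+: t' ∨ t' <+: t := by
  obtain ⟨s, h1, -, h2⟩ := h
  obtain ⟨s', k1, -, k2⟩ := k
  obtain ⟨r, -, a1, a2⟩ := hG.2 s h1 s' k1
  have hr := (fo _).l a1
  refine (((PP.ok hr (lt_sc β)).1.and ((gbr_aux a1 h2).and (gbr_aux a2 k2))).mono
    fun G _ _ a => ?_).elim (fo β) (PP_rs hr (lt_sc β).le)
  obtain ⟨σ, hσ⟩ := a.1.1
  obtain ⟨τ, b1, -, b2, -⟩ := a.1.long hσ (max t.length t'.length)
  exact List.prefix_or_prefix_of_prefix (a.2.1 τ b1 ((le_max_left _ _).trans b2))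
    (a.2.2 τ b1 ((le_max_right _ _).trans b2))

theorem gbr_long (β p : U0) (n : ℕ) : Frc (RR (sc β)) p fun G => ∃ t, gbr β G t ∧ n ≤ t.length := by
  refine frc_of_dense (fo _) fun r hr => ?_
  have hr' := (fo _).l hr
  obtain ⟨s, σ, h1, h2⟩ := Frc.ex (S := PP β) (fo β)
    (φ := fun (σ : St) G => (qv (dec r β) G).2.1 σ ∧ n ≤ σ.1.length)
    ((PP.ok hr' (lt_sc β)).1.mono fun G _ _ a =>
      let ⟨_, hσ⟩ := a.1; let ⟨τ, b1, _, b2, _⟩ := a.long hσ n; ⟨τ, b1, b2⟩)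
    (fun σ => ((ms_qv (PP.sup hr' (lt_sc β))).st σ).and (ms_const _)) (PP_rs hr' (lt_sc β).le)
  obtain ⟨t, k1, k2, k3⟩ := exists_rst (lt_sc β) hr' h1 (h2.mono fun _ _ _ k => k.1)
  have hn := (h2.mono fun _ _ _ k => k.2).elim (fo β) ((fo β).l h1)
  exact ⟨t, k1, frc_of_all fun G _ ht => ⟨σ.1, ⟨t, ht, (fo _).l k1,
    k2 ▸ k3.mono fun G _ _ a τ hτ => (a ▸ hτ : (rst _ _).2.1 τ).2⟩, hn⟩⟩

theorem gbr_tr {β s0 : U0} (h0 : s0 ∈ PP (sc β)) (t : Nd) :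
    Frc (RR (sc β)) s0 fun G => gbr β G t → Tr (qv (dec s0 β) G) t := by
  have m0 := (ms_qv (PP.sup h0 (lt_sc β))).tr t
  by_contra hc
  obtain ⟨r, h1, h2⟩ := Ms.of_not_frc (fo _) (S := PP (sc β))
    (((ms_gbr β).app t).imp (m0.mono (PP_mono (lt_sc β).le))) hc
  obtain ⟨G, hG, h3, h4⟩ := h2.exists (fo _) ((fo _).l h1)
  obtain ⟨s, h5, -, h6⟩ := (Classical.not_imp.1 h4).1
  obtain ⟨r', -, a1, a2⟩ := hG.2 r h3 s h5
  have hr := (fo _).l a1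
  have := Frc.lift' (lt_sc β).le hr m0 (((PP.ok hr (lt_sc β)).1.and ((gbr_aux a2 h6).and
    (((fo _).tr a1 h1).lec (lt_sc β)))).mono fun G _ _ a => by
      obtain ⟨σ, hσ⟩ := a.1.1
      obtain ⟨τ, b1, -, b2, -⟩ := a.1.long hσ t.length
      exact (a.2.2 τ b1).pre (a.2.1 τ b1 b2))
  exact ((this.and (h2.le a1)).mono fun _ _ _ k => k.2 fun _ => k.1).elim (fo _) hr

theorem dom_succ {β p0 : U0} (h0 : p0 ∈ PP β) (hu : Unc (RR β) (PP β) (XB β) p0) :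
    Dom (RR (sc β)) (XB β) p0 fun G => fr (gbr β G) := by
  intro h s hs
  have hs' := (fo _).l hs
  have mc := ms_qv (PP.sup hs' (lt_sc β))
  obtain ⟨x, hx, s1, a1, a2, a3⟩ := hu _ (RR_down (lt_sc β).le h0 hs)
    (fun G => itl (qv (dec s β) G).1 (qv (dec s β) G).2.2)
    (meas_itl (Measurable.fst mc) (Measurable.snd (Measurable.snd mc)))
  have mp := ms_ev (XB_sup hx).2
  have md : Ms (PP β) fun G => dP (rmx h) (qv (dec s β) G) (ev x.2 G) := meas_dP _ mc mp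
  have ok := (PP.ok hs' (lt_sc β)).le a1
  have a4 : Frc (RR β) s1 fun G => Nrm (qv (dec s β) G) ∧ Good (qv (dec s β) G) (ev x.2 G) ∧
      ∀ i, (qv (dec s β) G).1 i ≠ ev x.2 G :=
    ((ok.1.and (ok.2 x hx)).and (a3.and (frc_mem a2))).mono fun G _ _ k =>
      ⟨k.1.1, (k.1.2 k.2.2).resolve_left fun ⟨i, hi⟩ => k.2.1 (2 * i + 1) (by rw [itl_r, hi]),
        fun i hi => k.2.1 (2 * i) (by rw [itl_l, hi])⟩
  obtain ⟨e, me, he⟩ := (star_XB β).name (fo β)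
    (Ψ := fun G => PhP (rmx h) (qv (dec s β) G) (ev x.2 G))
    (meas_phP _ (Ms.fst mc) (Ms.fst mp) measurable_snd)
  obtain ⟨t, b1, b2, b3⟩ := exists_upd' (lt_sc β) hs' a1
    (f := fun G => Sig csP (dP (rmx h) (qv (dec s β) G) (ev x.2 G)) (e G)) (meas_sig _ md me)
    (a4.mono fun G _ _ k => ⟨(pp_fh k.1 k.2.1 k.2.2).nrm, pp_le (pp_fh k.1 k.2.1 k.2.2)⟩)
    fun x' hx' => ((a4.and (ok.2 x' hx')).and (he x' hx' s1)).mono fun G _ _ k k' =>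
      pp_good' k.1.1.1 k.1.1.2.1 k.1.1.2.2 (k.1.2 k') (k.2 k')
  have ht := (fo _).l b1
  refine ⟨x, hx, t, b1, RR_up (lt_sc β).le ht (b2 ▸ a2), ?_⟩
  have b4 := (Frc.lift (lt_sc β).le ((fo β).l a1)
    ((a4.and b3).mono (ψ := fun G => ∃ c p e', FH csP (dP (rmx h) c p) (VdP c p) ∧
    qv (dec t β) G = Sig csP (dP (rmx h) c p) e' ∧ ev x.2 G = p) fun G _ _ k =>
      ⟨_, _, _, pp_fh k.1.1 k.1.2.1 k.1.2.2, k.2, rfl⟩)).le
    (b2 ▸ RR_rs_self (lt_sc β).le ht : RR (sc β) t s1)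
  refine ((b4.and (frc_all (gbr_tr ht))).and (frc_all (gbr_long β t))).mono
    fun G hG _ ⟨⟨⟨c, p, e', c1, c2, c3⟩, c4⟩, c5⟩ => ?_
  rw [qv_inter (PP.sup ht (lt_sc β))] at c2
  rw [ev_inter (XB_sup hx).2] at c3
  obtain ⟨lc, k, hk⟩ := pp_branch' c1 (rmx_mono h) (r := gbr β G) (fun u hu => c2 ▸ c4 u hu)
    (fun u u' => gbr_chain hG) c5
  exact ⟨c3 ▸ lc, k, fun n hn => (le_rmx h le_rfl).trans (c3 ▸ hk n hn)⟩

theorem Dom.lift {γ α : Lv} (h : γ ≤ α) {X : Set (U0 × Nam U0)} (hX : ∀ x ∈ X, Sup (PP γ) x.2)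
    {q : U0} {Ψ : Set U0 → Cs → ℕ → ℕ} (hq : q ∈ PP γ) (hΨ : Ms2 (PP γ) Ψ)
    (k : Dom (RR γ) X q Ψ) : Dom (RR α) X q Ψ := by
  intro g s hs
  obtain ⟨x, hx, s', h1, h2, h3⟩ := k g _ (RR_down h hq hs)
  obtain ⟨t, k1, k2, k3, -⟩ := exists_glue h ((fo α).l hs) h1
  exact ⟨x, hx, t, k1, (fo α).tr k2 (RR_mono h h2), Frc.lift' h ((fo α).l k1)
    (ms_ll g hΨ (ms_ev (hX x hx))) (k3 ▸ h3)⟩

theorem dom_of_not_star {γ : Lv} {X : Set (U0 × Nam U0)} (hX : ∀ x ∈ X, Sup (PP γ) x.2)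
    (hX' : ∀ x ∈ X, x.1 ∈ PP γ) (h : ¬ Star (RR γ) X) :
    ∃ Ψ s, Ms2 (PP γ) Ψ ∧ s ∈ PP γ ∧ Dom (RR γ) X s Ψ := by
  simp only [Star, not_forall, not_exists, not_and] at h
  obtain ⟨Ψ, h1, s, h2, h3⟩ := h
  refine ⟨Ψ, s, h1, h2, fun g s' hs => ?_⟩
  obtain ⟨x, hx, h4⟩ := h3 s' g hs
  obtain ⟨q, h5, h6⟩ := Ms.of_not_frc (fo γ) (S := PP γ) ((ms_mem (hX' x hx)).imp
    (ms_ll g h1 (ms_ev (hX x hx))).not) h4
  obtain ⟨r, h7, h8⟩ := (h6.mono fun _ _ _ k => (Classical.not_imp.1 k).1).compat (fo γ)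
    ((fo γ).l h5)
  exact ⟨x, hx, r, (fo γ).tr h7 h5, h8,
    (h6.le h7).mono fun _ _ _ k => not_not.1 (Classical.not_imp.1 k).2⟩

theorem Dom.edom {α : Lv} {X : Set (U0 × Nam U0)} {q : U0} {Ψ : Set U0 → Cs → ℕ → ℕ}
    (hq : q ∈ PP α) (hΨ : Ms2 univ Ψ) (h : Dom (RR α) X q Ψ) :
    ∃ q' k, RR α q' q ∧ EDom (RR α) X q' fun G y n => Ψ G y (n + k) := by
  by_contra hc
  simp only [EDom, not_exists, not_and, not_forall] at hc
  choose e he1 he2 using fun k => mix (fo α) fun a g => ∀ x ∈ X, ∀ s', RR α s' a → RR α s' x.1 →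
    ¬ Frc (RR α) s' fun G => LC (fun y n => Ψ G y (n + k)) (ev x.2 G) ∧
      ∀ n, g n ≤ Ψ G (ev x.2 G) (n + k)
  obtain ⟨t, v, a1, a2⟩ := bdd α (fun G n => rmx (fun k => e k G (n - k)) n)
    (ms_pi fun n => meas_rmx (measurable_pi_lambda _ fun k => ((he1 k).univ.app _))
      measurable_const) q hq
  obtain ⟨x, hx, s', b1, b2, b3⟩ := h v t a1
  obtain ⟨s'', k, b4, b5⟩ := Frc.ex (S := univ) (fo α) (b3.mono fun _ _ _ k => k.2) (fun k => ms_all fun n =>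
    (ms_const _).imp ((ms_const _).le ((hΨ.app (ms_ev' _)).app n))) ((fo α).l b1)
  obtain ⟨g, s, b6, b7⟩ := hc s'' k ((fo α).tr b4 ((fo α).tr b1 a1))
  obtain ⟨s2, a, y, c1, c2, c3, c4⟩ := he2 k s g ((fo α).l b6) b7
  have c5 := (fo α).tr c1 b6
  have c6 := (fo α).tr c5 b4
  refine c3 x hx s2 c2 ((fo α).tr c6 b2) ((((c4.and (b5.le c5)).and
    (a2.le ((fo α).tr c6 b1))).and (b3.le c6)).mono fun G _ _ ⟨j, j'⟩ => ⟨j'.1.shift k, fun n => ?_⟩)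
  have := le_rmx (fun k' => e k' G (n + k - k')) (Nat.le_add_left k n)
  rw [Nat.add_sub_cancel, j.1.1] at this
  exact this.trans ((j.2 _).trans (j.1.2 _ (Nat.le_add_left k n)))

theorem Cf.bdd {α : Lv} (h : Cf α) (h0 : ((0 : U0) : Lv) < α) {T : Set U0} (hT : T.Countable)
    (k : T ⊆ PP α) : ∃ γ : U0, (γ : Lv) < α ∧ T ⊆ PP γ := by
  have hc : (insert 0 (⋃ p ∈ T, {β | dec p β ≠ ∅})).Countable :=
    (hT.biUnion fun p hp => (mem_PP.1 (k hp)).1.2.1).insert 0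
  obtain ⟨b, hb⟩ := hc.exists_eq_range (insert_nonempty _ _)
  obtain ⟨γ, h1, h2⟩ := h b fun n => by
    rcases (hb ▸ mem_range_self n : b n ∈ insert 0 (⋃ p ∈ T, {β | dec p β ≠ ∅})) with e | e
    · rwa [e]
    · obtain ⟨p, hp, e⟩ := mem_iUnion₂.1 e
      by_contra k'
      exact e (PP.empty (k hp) k')
  refine ⟨γ, h1, fun p hp => ?_⟩
  have : rs p γ = p := (rs_congr fun _ _ => rfl).trans (by
    rw [rs]
    refine Eq.trans ?_ (mem_PP.1 (k hp)).1.1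
    congr 1
    funext β
    split_ifs with j
    · rfl
    · by_contra e
      obtain ⟨n, rfl⟩ : β ∈ range b := hb ▸ Or.inr (mem_biUnion hp fun e' => e e'.symm)
      exact j (WithTop.coe_lt_coe.2 (h2 n)))
  exact this ▸ PP_rs (k hp) h1.le

theorem exists_ctbl_name {α : Lv} {f : Set U0 → Cs} (hf : Ms univ f) {s : U0} (hs : s ∈ PP α) :
    ∃ s' ρ, RR α s' s ∧ Set.Countable ρ ∧ Sup (PP α) ρ ∧ Frc (RR α) s' fun G => f G = ev ρ G := by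
  obtain ⟨N, pr, hc, h1, h2, h3⟩ := (club_proper.and (club_countable.and ((clo0 α).and
    ((clo0 s).and (club_all fun n : ℕ =>
      clo0 {t | ∃ b, Frc (RR α) t fun G => f G n = b}))))).exists
  obtain ⟨s', k1, k2⟩ := pr α h1 s hs h2
  have hN := countable_In U0 hc
  have := hN.to_subtype
  refine ⟨s', {x | In N x.1 ∧ x ∈ nameOf (RR α) f}, k1,
    (hN.prod (countable_univ (α := ℕ))).mono fun x hx => mk_mem_prod hx.1 (mem_univ _),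
    fun x hx => hx.2.1, ?_⟩
  have k3 : Frc (RR α) s' fun G => ∀ z : {t : U0 | In N t} × ℕ × Bool,
      (Frc (RR α) z.1.1 fun G => f G z.2.1 = z.2.2) → z.1.1 ∈ G → f G z.2.1 = z.2.2 :=
    frc_all fun z => by
      by_cases h : Frc (RR α) z.1.1 fun G => f G z.2.1 = z.2.2
      · exact Frc.of_ev (Eventually.mono h fun _ k _ => k)
      · exact frc_of_all fun _ _ _ k => (h k).elim
  refine (k2.and k3).mono fun G hG _ k => funext fun n => Bool.eq_iff_iff.2 ⟨fun h => ?_, fun h => ?_⟩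
  · obtain ⟨t, ⟨b, a1⟩, a2, a3⟩ := k.1 _ (h3 n) fun r hr =>
      let ⟨q, b, c1, c2⟩ := (hf.app n).dec_val (fo α) hr; ⟨q, ⟨b, c2⟩, c1⟩
    obtain rfl : true = b := h.symm.trans (k.2 (⟨t, a3⟩, n, b) a1 a2)
    exact ev_true.2 ⟨t, a2, a3, hG.self (fo α) a2, a1⟩
  · obtain ⟨t, a1, a2, -, a3⟩ := ev_true.1 h
    exact k.2 (⟨t, a2⟩, n, true) a3 a1

theorem unc_preserve {β β' : Lv} (h : β ≤ β') {Y : Set (U0 × Nam U0)} {p0 : U0} (h0 : p0 ∈ PP β)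
    (hY : ∀ x ∈ Y, x.2.Countable ∧ Sup (PP β) x.2)
    (hu : ∀ q, RR β q p0 → ∀ a : ℕ → Nam U0, (∀ n, (a n).Countable ∧ Sup (PP β) (a n)) →
      ∃ x ∈ Y, RR β x.1 q ∧ Frc (RR ⊤) x.1 fun G => ∀ n, ev x.2 G ≠ ev (a n) G) :
    Unc (RR β') (PP β') Y p0 := by
  intro q hq a ha
  obtain ⟨N, pr, hc, mt, ⟨b1, -⟩, h1, h2, h3, h4, s1⟩ := (club_proper.and (club_countable.and
    (club_meet'.and (club_basic.and ((clo0 β').and ((clo0 q).and ((clo0 (∅ : Nam U0)).and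
    ((club_all fun n : ℕ => clo0 {t | ∃ π : Nam U0, (π.Countable ∧ Sup (PP β) π) ∧
      Frc (RR β') t fun G => ev π G = a G n}).and
    (club_all fun n : ℕ => sk1 fun t (π : Nam U0) => (π.Countable ∧ Sup (PP β) π) ∧
      Frc (RR β') t fun G => ev π G = a G n))))))))).exists
  obtain ⟨q', k1, k2⟩ := pr β' h1 q ((fo _).l hq) h2
  obtain ⟨a', ha'⟩ := exists_enum hc (fun π : Nam U0 => π.Countable ∧ Sup (PP β) π)
    ⟨countable_empty, fun _ k => k.elim⟩ h3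
  have ha'' := fun n => ((ha' _).2 ⟨n, rfl⟩).1
  obtain ⟨x, hx, k3, k4⟩ := hu _ (RR_down h h0 ((fo _).tr k1 hq)) a' ha''
  have mx := (ms_ev (hY x hx).2).mono (PP_mono h)
  replace k4 := Frc.down le_top (PP_mono h ((fo _).l k3))
    (ms_all fun n => (mx.eq ((ms_ev (ha'' n).2).mono (PP_mono h))).not) k4
  obtain ⟨s, k5, k6, -⟩ := exists_glue h ((fo _).l k1) k3
  refine ⟨x, hx, s, (fo _).tr k5 k1, k6, frc_all fun n => ?_⟩
  by_contra hc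
  obtain ⟨r, c1, c2⟩ := (mx.eq (ha.app n)).not.of_not_frc (fo _) hc
  replace c2 := c2.mono fun _ _ _ k => not_not.1 k
  obtain ⟨G, hG, c3, c4⟩ := (k2.le ((fo _).tr c1 k5)).exists (fo _) ((fo _).l c1)
  obtain ⟨t, c5, c6, c7⟩ := mt _ _ G (fo _) (b1 _ h1) (h4 n) hG c4 ⟨r, ⟨x.2, hY x hx, c2⟩, c3⟩
  obtain ⟨π, c8, c9, c10⟩ := s1 n t c7 c5
  obtain ⟨m, rfl⟩ := (ha' π).1 ⟨c9, c8⟩
  obtain ⟨w, -, d1, d2⟩ := hG.2 r c3 t c6
  exact ((((c2.le d1).and (c10.le d2)).and (k4.le ((fo _).tr d1 ((fo _).tr c1 k6)))).mono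
    fun G _ _ k => k.2 m (k.1.1.trans k.1.2.symm)).elim (fo _) ((fo _).l d1)

theorem small_names (γ : U0) : Small.{0} {ρ : Nam U0 | Sup (PP γ) ρ} := by
  have := small_PP γ
  exact small_subset (s := 𝒫 (PP γ ×ˢ (univ : Set ℕ))) fun ρ h x hx => ⟨h x hx, trivial⟩

theorem exists_guess {β : U0} {Y : Set (U0 × Nam U0)} (hY : ∀ x ∈ Y, x.1 ∈ PP β ∧ Sup (PP β) x.2) :
    ∃ β', β ≤ β' ∧ Xraw (RR (β' : U0)) β' = Y := by
  have := small_PP β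
  have := small_names β
  have : Small.{0} Y := small_subset (s := PP β ×ˢ {ρ : Nam U0 | Sup (PP β) ρ}) hY
  let c : Nam U0 → U0 := fun ρ => enc fun γ => {x | γ = 0 ∧ x ∈ ρ}
  have hc : ∀ x ∈ Y, dec (c x.2) 0 = x.2 := fun x hx => by
    have := small_sup (hY x hx).2
    simp only [c, dec_enc (sm_single 0 x.2)]
    simp
  have hsm : Sm fun p => {z | ∃ x ∈ Y, x.1 = p ∧ z = (c x.2, 0)} :=
    small_subset (s := (fun x : U0 × Nam U0 => (x.1, c x.2, 0)) '' Y)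
      fun z ⟨x, h1, h2, h3⟩ => ⟨x, h1, Prod.ext h2 h3.symm⟩
  obtain ⟨β', h1, h2⟩ := bk_spec (enc fun p => {z | ∃ x ∈ Y, x.1 = p ∧ z = (c x.2, 0)}) β
  have h3 := PP_mono (WithTop.coe_le_coe.2 h1)
  refine ⟨β', h1, ?_⟩
  ext x
  simp only [Xraw, h2, dec_enc hsm, mem_ofPred_eq]
  constructor
  · rintro ⟨-, -, u, ⟨y, k1, k2, k3⟩, k4⟩
    obtain rfl : u = c y.2 := congrArg Prod.fst k3
    rw [hc y k1] at k4
    rwa [show x = y from Prod.ext k2.symm k4]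
  · exact fun hx => ⟨h3 (hY x hx).1, fun z hz => h3 ((hY x hx).2 z hz), _, ⟨x, hx, rfl, rfl⟩,
      (hc x hx).symm⟩

theorem dich (X : Set (U0 × Nam U0)) {p0 : U0} (h0 : p0 ∈ PP ⊤) : ∃ q, RR ⊤ q p0 ∧
    ((∃ a, Ctb (RR ⊤) X q a) ∨ ∃ Ψ, Ms2 univ Ψ ∧ EDom (RR ⊤) X q Ψ) := by
  by_cases hc : ∃ q, RR ⊤ q p0 ∧ ∃ a, Ctb (RR ⊤) X q a
  · obtain ⟨q, h1, h2⟩ := hc
    exact ⟨q, h1, Or.inl h2⟩
  have t0 : ((0 : U0) : Lv) < ⊤ := WithTop.coe_lt_top _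
  let Y : Set (U0 × Nam U0) := {x | RR ⊤ x.1 p0 ∧ x.2.Countable ∧
    ∃ x' ∈ X, RR ⊤ x.1 x'.1 ∧ Frc (RR ⊤) x.1 fun G => ev x'.2 G = ev x.2 G}
  have h1 : ∀ z : U0 × (ℕ → Nam U0), ∃ δ : U0, RR ⊤ z.1 p0 → ∃ x ∈ Y, x.1 ∈ PP δ ∧ Sup (PP δ) x.2 ∧
      RR ⊤ x.1 z.1 ∧ Frc (RR ⊤) x.1 fun G => ∀ n, ev x.2 G ≠ ev (z.2 n) G := by
    rintro ⟨q, a⟩
    by_cases hq : RR ⊤ q p0
    swap
    · exact ⟨0, fun k => (hq k).elim⟩
    simp only [Ctb, not_exists, not_and, not_forall] at hc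
    obtain ⟨x, hx, a1⟩ := hc q hq a
    obtain ⟨s, a2, a3⟩ := Ms.of_not_frc (fo ⊤) (S := univ) ((ms_mem (mem_univ _)).imp
      (ms_ex fun n => (ms_ev' _).eq (ms_ev' _))) a1
    obtain ⟨r, a4, a5⟩ := (a3.mono fun _ _ _ k => (Classical.not_imp.1 k).1).compat (fo ⊤)
      ((fo ⊤).l a2)
    obtain ⟨s', ρ, a6, a7, a8, a9⟩ := exists_ctbl_name (ms_ev' x.2) ((fo ⊤).l a4)
    obtain ⟨δ, -, b1⟩ := Cf.bdd cf_top t0 ((a7.image Prod.fst).insert s')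
      (insert_subset ((fo ⊤).l a6) (image_subset_iff.2 a8))
    have b2 := (fo ⊤).tr a6 ((fo ⊤).tr a4 a2)
    exact ⟨δ, fun _ => ⟨(s', ρ), ⟨(fo ⊤).tr b2 hq, a7, x, hx, (fo ⊤).tr a6 a5, a9⟩,
      b1 (mem_insert _ _), fun z hz => b1 (mem_insert_of_mem _ ⟨z, hz, rfl⟩), b2,
      (a9.and (a3.le ((fo ⊤).tr a6 a4))).mono fun G _ _ k n e =>
        (Classical.not_imp.1 k.2).2 ⟨n, k.1.trans e⟩⟩⟩
  choose δ hδ using h1
  have h2 : ∀ γ : U0, ∃ o, ∀ q ∈ PP γ, ∀ a, (∀ n, Sup (PP γ) (a n)) → δ (q, a) ≤ o := by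
    intro γ
    have := small_PP γ
    have := small_names γ
    obtain ⟨o, ho⟩ := Ordinal.bddAbove_of_small
      (s := δ '' (PP γ ×ˢ univ.pi fun _ => {ρ : Nam U0 | Sup (PP γ) ρ}))
    exact ⟨o, fun q hq a ha => ho ⟨(q, a), ⟨hq, fun n _ => ha n⟩, rfl⟩⟩
  choose g hg using h2
  obtain ⟨γ0, -, h3⟩ := Cf.bdd cf_top t0 (countable_singleton p0) (singleton_subset_iff.2 h0)
  obtain ⟨β, h4, h5, h6⟩ := exists_closed fun γ => max (g γ) γ0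
  have h7 : p0 ∈ PP β :=
    PP_mono (WithTop.coe_le_coe.2 ((le_max_right _ _).trans (h6 0 h4).le)) (h3 rfl)
  obtain ⟨β', h8, h9⟩ := exists_guess (β := β) (Y := {x ∈ Y | x.1 ∈ PP β ∧ Sup (PP β) x.2})
    fun x hx => hx.2
  have h8' : (β : Lv) ≤ β' := WithTop.coe_le_coe.2 h8
  have hsup : ∀ x ∈ {x ∈ Y | x.1 ∈ PP β ∧ Sup (PP β) x.2}, Sup (PP β') x.2 :=
    fun x hx z hz => PP_mono h8' (hx.2.2 z hz)
  have key : ∃ q Ψ, RR ⊤ q p0 ∧ Ms2 univ Ψ ∧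
      Dom (RR ⊤) {x ∈ Y | x.1 ∈ PP β ∧ Sup (PP β) x.2} q Ψ := by
    by_cases hs : Star (RR β') (Xraw (RR β') β')
    · have e : XB β' = {x ∈ Y | x.1 ∈ PP β ∧ Sup (PP β) x.2} := by
        rw [← h9]; ext x; simp [XB, XX, hs]
      have m : Ms2 (PP (sc β')) fun G => fr (gbr β' G) := meas_fr (ms_gbr β').fst measurable_snd
      refine ⟨p0, _, h0, m.mono (subset_univ _), Dom.lift le_top
        (fun x hx z hz => PP_mono (lt_sc β').le (hsup x hx z hz))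
        (PP_mono (h8'.trans (lt_sc β').le) h7) m (e ▸ dom_succ (PP_mono h8' h7) ?_)⟩
      rw [e]
      refine unc_preserve h8' h7 (fun x hx => ⟨hx.1.2.1, hx.2.2⟩) fun q hq a ha => ?_
      obtain ⟨γ, k1, k2⟩ := Cf.bdd h5 (WithTop.coe_lt_coe.2 h4)
        ((countable_iUnion fun n => (ha n).1.image Prod.fst).insert q)
        (insert_subset ((fo _).l hq) (iUnion_subset fun n => image_subset_iff.2 (ha n).2))
      obtain ⟨x, k3, k4, k5, k6, k7⟩ := hδ (q, a) (RR_mono le_top hq)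
      have k8 := PP_mono (WithTop.coe_le_coe.2 (((hg γ q (k2 (mem_insert _ _)) a fun n z hz =>
        k2 (mem_insert_of_mem _ (mem_iUnion.2 ⟨n, z, hz, rfl⟩))).trans (le_max_left _ _)).trans
          (h6 γ (WithTop.coe_lt_coe.1 k1)).le))
      refine ⟨x, ⟨k3, k8 k4, fun z hz => k8 (k5 z hz)⟩, ?_, k7⟩
      have := RR_down le_top ((fo _).l hq) k6
      rwa [rs_self (k8 k4) le_rfl] at this
    · rw [h9] at hs
      obtain ⟨Ψ, s, k1, k2, k3⟩ := dom_of_not_star hsup (fun x hx => PP_mono h8' hx.2.1) hs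
      replace k3 := k3.lift le_top hsup k2 k1
      obtain ⟨x, hx, q, k4, k5, -⟩ := k3 (fun _ => 0) s (PP_mono le_top k2)
      exact ⟨q, Ψ, (fo ⊤).tr k5 hx.1.1, k1.mono (subset_univ _),
        fun h s' hs' => k3 h s' ((fo ⊤).tr hs' k4)⟩
  obtain ⟨q, Ψ, k1, k2, k3⟩ := key
  have k4 : Dom (RR ⊤) X q Ψ := fun h s hs => by
    obtain ⟨x, ⟨⟨-, -, x', a1, a2, a3⟩, -⟩, s', a4, a5, a6⟩ := k3 h s hs
    exact ⟨x', a1, s', a4, (fo ⊤).tr a5 a2, (a6.and (a3.le a5)).mono fun G _ _ k => k.2 ▸ k.1⟩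
  obtain ⟨q', k, k5, k6⟩ := k4.edom ((fo ⊤).l k1) k2
  exact ⟨q', (fo ⊤).tr k5 k1, Or.inr ⟨fun G y n => Ψ G y (n + k),
    measurable_pi_lambda _ fun n => Measurable.eval k2, k6⟩⟩

end Pool.Agent.Lib.MP_fecf72_lc.HM
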