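import Pool.Agent.Lib.MP_fecf72_lc.HM.Step

namespace Pool.Agent.Lib.MP_fecf72_lc.HM

open Set Filter

/-- The properness extension property between two levels. -/
def PEL (N : Set Wd) (γ α : Lv) : Prop :=
  ∀ q ∈ PP γ, Frc (RR γ) q (GenN N (RR γ)) → ∀ (u : ℕ → U0) (ι : Set U0 → ℕ),
    (∀ i, u i ∈ PP α ∧ In N (u i)) → Ms (PP γ) ι → (Frc (RR γ) q fun G => rs (u (ι G)) γ ∈ G) →
      ∃ q' ∈ PP α, rs q' γ = q ∧ Frc (RR α) q' fun G => GenN N (RR α) G ∧ u (ι G) ∈ G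

theorem PEL.refl (N : Set Wd) (γ : Lv) : PEL N γ γ := fun q hq h1 _ _ h2 _ h3 =>
  ⟨q, hq, rs_self hq le_rfl, (h1.and h3).mono fun _ _ _ k =>
    ⟨k.1, rs_self (h2 _).1 le_rfl ▸ k.2⟩⟩

theorem PEL.trans {N : Set Wd} {γ β α : Lv} (h : PEL N γ β) (k : PEL N β α) (h1 : γ ≤ β)
    (h2 : β ≤ α) (h3 : ∀ p : U0, In N p → In N (rs p β)) : PEL N γ α := by
  intro q hq a1 u ι a2 a3 a4
  obtain ⟨q1, b1, b2, b3⟩ := h q hq a1 (fun i => rs (u i) β) ι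
    (fun i => ⟨PP_rs (a2 i).1 h2, h3 _ (a2 i).2⟩) a3 (by simpa only [rs_rs _ h1] using a4)
  obtain ⟨q2, c1, c2, c3⟩ := k q1 b1 (b3.mono fun _ _ _ k => k.1) u ι a2 (a3.mono (PP_mono h1))
    (b3.mono fun _ _ _ k => k.2)
  exact ⟨q2, c1, by rw [← rs_rs q2 h1, c2, b2], c3⟩

theorem club_pel_succ : ∀ᶠ N in Club, ∀ β : U0, In N β → PEL N β (sc β) := by
  filter_upwards [club_step, club_countable, club_basic, clo0 (univ : Set U0)]
    with N st hc ⟨_, _, _, _, b5, _⟩ hU β hβ q hq h1 u ι h2 h3 h4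
  obtain ⟨u', hu'⟩ := exists_enum hc (· ∈ PP (sc β)) (top_mem _) b5
  obtain ⟨D, hD⟩ := exists_enum hc (Dn (RR (sc β))) (dn_univ _) hU
  choose idx hidx using fun i => (hu' (u i)).1 (h2 i)
  obtain ⟨q', k1, k2, k3, bd, -, k4⟩ := st β hβ u' hu' D
    (fun j => ((hD (D j)).2 ⟨j, rfl⟩).symm) q hq h1 (fun G => idx (ι G))
    (h3.comp (measurable_of_countable idx)) (by simpa only [hidx] using h4)
  refine ⟨q', k1, k2, (k3.and (frc_all k4)).mono fun G _ _ k => ⟨fun E e1 e2 => ?_, hidx _ ▸ k.1⟩⟩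
  obtain ⟨j, rfl⟩ := (hD E).1 ⟨e2, e1⟩
  obtain ⟨i, -, e3, e4⟩ := k.2 j
  exact ⟨_, e4, e3, ((hu' _).2 ⟨i, rfl⟩).2⟩

theorem exists_limit {δ : Lv} {γ : ℕ → Lv} (hγ : Monotone γ) (hδ : ∀ n, γ n ≤ δ) {q : ℕ → U0}
    (h1 : ∀ n, q n ∈ PP (γ n)) (h2 : ∀ n, rs (q (n + 1)) (γ n) = q n) :
    ∃ q' ∈ PP δ, ∀ n, rs q' (γ n) = q n := by
  have h3 : ∀ n m, n ≤ m → rs (q m) (γ n) = q n := by
    intro n m hm
    induction hm with
    | refl => exact rs_self (h1 n) le_rfl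
    | step hm ih => rw [← rs_rs _ (hγ hm), h2, ih]
  have hsm : Sm fun β => ⋃ n, dec (q n) β :=
    sm_of_cover (fun n => sm_dec (q n)) fun β x hx => mem_iUnion.1 hx
  have h4 : ∀ n (β : U0), (β : Lv) < γ n → dec (enc fun β => ⋃ n, dec (q n) β) β = dec (q n) β := by
    intro n β hβ
    rw [dec_enc hsm]
    refine (iUnion_subset fun m => ?_).antisymm (subset_iUnion (fun n => dec (q n) β) n)
    rcases le_total n m with h | h
    · rw [← h3 n m h, dec_rs_lt hβ]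
    · by_cases k : (β : Lv) < γ m
      · rw [← h3 m n h, dec_rs_lt k]
      · rw [PP.empty (h1 m) k]; exact empty_subset _
  have h5 : ∀ β : U0, (∀ n, ¬ (β : Lv) < γ n) → ⋃ n, dec (q n) β = ∅ := fun β h =>
    iUnion_eq_empty.2 fun n => PP.empty (h1 n) (h n)
  refine ⟨_, mem_PP.2 ⟨shape_enc hsm ((countable_iUnion fun n => (mem_PP.1 (h1 n)).1.2.1).mono
    fun β hβ => ?_) fun β hβ => h5 β fun n k => hβ (k.trans_le (hδ n)), fun β _ => ?_⟩,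
    fun n => (rs_congr (h4 n)).trans (rs_self (h1 n) le_rfl)⟩
  · by_contra hc
    simp only [mem_iUnion, mem_ofPred_eq, not_exists, not_not] at hc
    exact hβ (iUnion_eq_empty.2 hc)
  · by_cases k : ∃ n, (β : Lv) < γ n
    · obtain ⟨n, k⟩ := k
      exact (okc_congr fun δ hδ => h4 n δ ((WithTop.coe_le_coe.2 hδ).trans_lt k)).2
        ((mem_PP.1 (h1 n)).2 β k)
    · exact okc_empty (by rw [dec_enc hsm]; exact h5 β fun n k' => k ⟨n, k'⟩)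

theorem ms_rs_mem {γ α : Lv} (h : γ ≤ α) {u : ℕ → U0} (hu : ∀ i, u i ∈ PP α) {ι : Set U0 → ℕ}
    (hι : Ms (PP γ) ι) : Ms (PP γ) fun G => rs (u (ι G)) γ ∈ G :=
  ms_ctbl (f := fun i G => rs (u i) γ ∈ G) (fun i => ms_mem (PP_rs (hu i) h)) hι

theorem lim {N : Set Wd} {δ : Lv} {γ : ℕ → Lv} (hγ : Monotone γ) (hδ : ∀ n, γ n ≤ δ)
    (hrs : ∀ n (p : U0), In N p → In N (rs p (γ n)))
    (hcof : ∀ p ∈ PP δ, In N p → ∀ β : U0, (β : Lv) < δ → dec p β ≠ ∅ → ∃ n, (β : Lv) < γ n)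
    (hP : ∀ n, PEL N (γ n) (γ (n + 1))) {u : ℕ → U0} (hu : ∀ i, u i ∈ PP δ ∧ In N (u i))
    {K : ℕ → Set U0} (hK : ∀ n i, u i ∈ K n → ∀ G, IsF (RR (γ n)) G → GenN N (RR (γ n)) G →
      rs (u i) (γ n) ∈ G → ∃ j, u j ∈ K (n + 1) ∧ RR δ (u j) (u i) ∧ rs (u j) (γ n) ∈ G)
    {q0 : U0} (h1 : q0 ∈ PP (γ 0)) (h2 : Frc (RR (γ 0)) q0 (GenN N (RR (γ 0)))) {ι0 : Set U0 → ℕ}
    (h3 : Ms (PP (γ 0)) ι0)
    (h4 : Frc (RR (γ 0)) q0 fun G => rs (u (ι0 G)) (γ 0) ∈ G ∧ u (ι0 G) ∈ K 0) :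
    ∃ q' ∈ PP δ, rs q' (γ 0) = q0 ∧
      Frc (RR δ) q' fun G => u (ι0 G) ∈ G ∧ ∀ n, ∃ j, u j ∈ G ∧ u j ∈ K n := by
  let I : ℕ → U0 × (Set U0 → ℕ) → Prop := fun n z => z.1 ∈ PP (γ n) ∧
    Frc (RR (γ n)) z.1 (GenN N (RR (γ n))) ∧ Ms (PP (γ n)) z.2 ∧
    Frc (RR (γ n)) z.1 fun G => rs (u (z.2 G)) (γ n) ∈ G ∧ u (z.2 G) ∈ K n
  have step : ∀ n z, I n z → ∃ z', I (n + 1) z' ∧ rs z'.1 (γ n) = z.1 ∧
      Frc (RR (γ (n + 1))) z'.1 fun G => RR δ (u (z'.2 G)) (u (z.2 G)) := by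
    rintro n ⟨q, ι⟩ ⟨a1, a2, a3, a4⟩
    have hn := hγ (Nat.le_succ n)
    let ι' : Set U0 → ℕ := fun G =>
      sInf {j | u j ∈ K (n + 1) ∧ RR δ (u j) (u (ι G)) ∧ rs (u j) (γ n) ∈ G}
    have m1 : Ms (PP (γ n)) ι' := ms_sInf fun j => (ms_const _).and
      ((a3.comp (measurable_of_countable fun i => RR δ (u j) (u i))).and
        (ms_mem (PP_rs (hu j).1 (hδ n))))
    have b1 : Frc (RR (γ n)) q fun G => u (ι' G) ∈ K (n + 1) ∧ RR δ (u (ι' G)) (u (ι G)) ∧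
        rs (u (ι' G)) (γ n) ∈ G :=
      (a2.and a4).mono fun G hG _ k => Nat.sInf_mem (hK n _ k.2.2 G hG k.1 k.2.1)
    obtain ⟨q', c1, c2, c3⟩ := hP n q a1 a2 (fun j => rs (u j) (γ (n + 1))) ι'
      (fun j => ⟨PP_rs (hu j).1 (hδ _), hrs _ _ (hu j).2⟩) m1
      (b1.mono fun G _ _ k => by simpa only [rs_rs _ hn] using k.2.2)
    have b2 := Frc.lift' hn c1 (φ := fun G => u (ι' G) ∈ K (n + 1) ∧ RR δ (u (ι' G)) (u (ι G)))
      ((m1.prod a3).comp (measurable_of_countable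
        fun z : ℕ × ℕ => u z.1 ∈ K (n + 1) ∧ RR δ (u z.1) (u z.2)))
      (c2 ▸ b1.mono fun _ _ _ k => ⟨k.1, k.2.1⟩)
    exact ⟨(q', ι'), ⟨c1, c3.mono fun _ _ _ k => k.1, m1.mono (PP_mono hn),
      (c3.and b2).mono fun _ _ _ k => ⟨k.1.2, k.2.1⟩⟩, c2, b2.mono fun _ _ _ k => k.2⟩
  choose! nx hnx using step
  let z : ℕ → U0 × (Set U0 → ℕ) := fun n => Nat.rec (q0, ι0) nx n
  have hz : ∀ n, I n (z n) := by
    intro n
    induction n with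
    | zero => exact ⟨h1, h2, h3, h4⟩
    | succ n ih => exact (hnx n _ ih).1
  obtain ⟨q', k1, k2⟩ := exists_limit hγ hδ (q := fun n => (z n).1) (fun n => (hz n).1)
    fun n => (hnx n _ (hz n)).2.1
  have k3 : ∀ n, Frc (RR δ) q' fun G => rs (u ((z n).2 G)) (γ n) ∈ G ∧ u ((z n).2 G) ∈ K n :=
    fun n => Frc.lift' (hδ n) k1 ((ms_rs_mem (hδ n) (fun i => (hu i).1) (hz n).2.2.1).and
      ((hz n).2.2.1.comp (measurable_of_countable fun i => u i ∈ K n))) (k2 n ▸ (hz n).2.2.2)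
  have k4 : ∀ n, Frc (RR δ) q' fun G => RR δ (u ((z (n + 1)).2 G)) (u ((z n).2 G)) :=
    fun n => Frc.lift' (hδ (n + 1)) k1 (((hz (n + 1)).2.2.1.prod ((hz n).2.2.1.mono
      (PP_mono (hγ (Nat.le_succ n))))).comp (measurable_of_countable
        fun z : ℕ × ℕ => RR δ (u z.1) (u z.2))) (k2 (n + 1) ▸ (hnx n _ (hz n)).2.2)
  have k5 : Frc (RR δ) q' fun G => ∀ n m, n ≤ m → rs (u ((z n).2 G)) (γ m) ∈ G := by
    refine ((frc_all k3).and (frc_all k4)).mono fun G hG _ k n m hm => ?_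
    have : RR δ (u ((z m).2 G)) (u ((z n).2 G)) := by
      induction hm with
      | refl => exact (hu _).1
      | step _ ih => exact (fo δ).tr (k.2 _) ih
    exact hG.1 _ (k.1 m).1 _ (RR_mono (hδ m) (RR_rs this (hδ m)))
  have k6 : ∀ n, Frc (RR δ) q' fun G => u ((z n).2 G) ∈ G := by
    intro n
    refine frc_of_dense (fo δ) fun r hr => ?_
    obtain ⟨r1, i, a1, a2⟩ := (hz n).2.2.1.dec_val (fo δ) ((fo δ).l hr)
    have : RR δ r1 (u i) := RR_sep ((fo δ).l a1) (hu i).1 fun β hβ he => by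
      obtain ⟨m, hm⟩ := hcof _ (hu i).1 (hu i).2 β hβ he
      have hm' : sc β ≤ γ (max n m) := succ_le (hm.trans_le (hγ (le_max_right _ _)))
      refine (a2.and (k5.le ((fo δ).tr a1 hr))).mono fun G hG _ k => ?_
      have := k.2 n _ (le_max_left n m)
      rw [k.1] at this
      refine hG.1 _ this _ (RR_mono (hδ (max n m)) ?_)
      rw [← rs_rs _ hm']
      exact RR_rs_self hm' (PP_rs (hu i).1 (hδ _))
    exact ⟨r1, a1, (a2.and (frc_mem this)).mono fun G _ _ k => k.1 ▸ k.2⟩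
  exact ⟨q', k1, k2 0, ((frc_all k6).and (frc_all k3)).mono fun G _ _ k =>
    ⟨k.1 0, fun n => ⟨_, k.1 n, (k.2 n).2⟩⟩⟩

theorem club_supp : ∀ᶠ N in Club, ∀ α, ∀ p ∈ PP α, In N p → ∀ β : U0, dec p β ≠ ∅ → In N β := by
  filter_upwards [clo_sub (fun p : U0 => {β | {β | dec p β ≠ ∅}.Countable ∧ dec p β ≠ ∅})
    fun p => by
      by_cases h : {β | dec p β ≠ ∅}.Countable
      · exact h.mono fun _ k => k.2
      · simp [h]] with N h α p hp hN β hβ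
  exact h p hN β ⟨(mem_PP.1 hp).1.2.1, hβ⟩

theorem club_pel : ∀ᶠ N in Club, ∀ α : Lv, In N α → ∀ γ ≤ α, In N γ → PEL N γ α := by
  filter_upwards [club_pel_succ, club_countable, club_basic, club_supp, clo0 (univ : Set U0),
    sk1 fun (α : Lv) β => α = sc β, club_meet2,
    clo4 fun (α γ : Lv) (p : U0) (D : Set U0) => {s | ∃ d ∈ D, RR α d p ∧ s = rs d γ},
    sk4 fun (z : Lv × Lv) (p : U0) (D : Set U0) s d => d ∈ D ∧ RR z.1 d p ∧ s = rs d z.2,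
    clo_pair Lv Lv]
    with N su hc ⟨b1, b2, b3, b4, b5, _, b7⟩ sp hU s1 mt c1 s2 cp α
  induction α using WellFoundedLT.induction with
  | ind α ih =>
  intro hα γ0 h1 h2
  rcases h1.eq_or_lt with rfl | h1
  · exact PEL.refl _ _
  rcases lv_cases α with h | h
  · obtain ⟨β, hβ, rfl⟩ := s1 α hα h
    exact (ih β (lt_sc β) (b2 β hβ) γ0 (le_of_lt_sc h1) h2).trans (su β hβ) (le_of_lt_sc h1)
      (lt_sc β).le fun p hp => b4 p _ hp (b2 β hβ)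
  obtain ⟨γ, rfl, k1, k2, k3⟩ := exists_cof hc (fun β k => b2 _ (b3 β k)) b7 h h1 h2
  intro q hq a1 u ι a2 a3 a4
  obtain ⟨u', hu'⟩ := exists_enum hc (· ∈ PP α) (top_mem _) b5
  obtain ⟨D, hD⟩ := exists_enum hc (Dn (RR α)) (dn_univ _) hU
  choose idx hidx using fun i => (hu' (u i)).1 (a2 i)
  have hu'' := fun i => (hu' _).2 ⟨i, rfl⟩
  obtain ⟨q', c2, c3, c4⟩ := lim (N := N) k1 (fun n => (k2 n).1.le)
    (fun n p hp => b4 p _ hp (k2 n).2) (fun p hp hN β hβ he => k3 β (sp α p hp hN β he) hβ)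
    (fun n => ih _ (k2 _).1 (k2 _).2 _ (k1 (Nat.le_succ n)) (k2 n).2) hu''
    (K := fun n => Nat.casesOn n univ D) (by
      intro n i _ G hG hN hp
      have hd := (hD _).2 ⟨n, rfl⟩
      obtain ⟨s, e1, e2, e3⟩ := mt _ _ G _ (fo _) (b1 _ (k2 n).2)
        (c1 α (γ n) _ _ hα (k2 n).2 (hu'' i).2 hd.2) (b4 _ _ (hu'' i).2 (k2 n).2) hG hN hp
        (frc_meet (fo _) fun r hr => by
          obtain ⟨t, e1, -, e2, -⟩ := exists_glue (k2 n).1.le (hu'' i).1 hr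
          obtain ⟨d, e3, e4⟩ := hd.1 t ((fo _).l e1)
          have := RR_rs e4 (k2 n).1.le
          exact ⟨_, ⟨d, e3, (fo _).tr e4 e1, rfl⟩, _, e2 ▸ this, (fo _).l this⟩)
      obtain ⟨d, e4, e5, e6, rfl⟩ := s2 (α, γ n) _ _ s ((cp _ _).2 ⟨hα, (k2 n).2⟩) (hu'' i).2 hd.2
        e3 e1
      obtain ⟨j, rfl⟩ := (hu' d).1 ⟨(fo _).l e6, e4⟩
      exact ⟨j, e5, e6, e2⟩) hq a1 (a3.comp (measurable_of_countable idx))
    (a4.mono fun G _ _ k => ⟨hidx _ ▸ k, trivial⟩)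
  refine ⟨q', c2, c3, c4.mono fun G _ _ k => ⟨fun E e1 e2 => ?_, hidx _ ▸ k.1⟩⟩
  obtain ⟨n, rfl⟩ := (hD E).1 ⟨e2, e1⟩
  obtain ⟨j, e3, e4⟩ := k.2 (n + 1)
  exact ⟨_, e4, e3, (hu'' j).2⟩

theorem eq_top_of_zero {p : U0} (h : p ∈ PP ((0 : U0) : Lv)) : p = top := by
  rw [← (mem_PP.1 h).1.1, top]
  congr 1
  exact funext fun β => PP.empty h (not_lt.2 (zero_le_lv _))

theorem genN_zero {N : Set Wd} (h : In N top) :
    Frc (RR ((0 : U0) : Lv)) top (GenN N (RR ((0 : U0) : Lv))) :=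
  frc_of_all fun _ _ hG D _ hD => by
    obtain ⟨d, h1, h2⟩ := hD top (top_mem _)
    obtain rfl := eq_top_of_zero ((fo _).l h2)
    exact ⟨_, h1, hG, h⟩

theorem rs_zero {α : Lv} {p : U0} (h : p ∈ PP α) : rs p ((0 : U0) : Lv) = top :=
  eq_top_of_zero (PP_rs h (zero_le_lv _))

theorem club_proper : ∀ᶠ N in Club, ∀ α : Lv, In N α → ∀ p ∈ PP α, In N p →
    ∃ q, RR α q p ∧ Frc (RR α) q (GenN N (RR α)) := by
  filter_upwards [club_pel, club_basic] with N h ⟨_, b2, _, _, b5, b6, _⟩ α hα p h1 h2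
  obtain ⟨q, k1, -, k2⟩ := h α hα _ (zero_le_lv α) (b2 0 b6) top (top_mem _) (genN_zero b5)
    (fun _ => p) (fun _ => 0) (fun _ => ⟨h1, h2⟩) (ms_const _)
    (frc_of_all fun G _ k => by rwa [rs_zero h1])
  obtain ⟨r, k3, k4⟩ := (k2.mono fun _ _ _ k => k.2).compat (fo α) k1
  exact ⟨r, k4, (k2.le k3).mono fun _ _ _ k => k.1⟩

end Pool.Agent.Lib.MP_fecf72_lc.HM
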