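import Pool.Agent.Lib.MP_fecf72_lc.Main

namespace Pool.Agent.Lib.MP_fecf72_lc.HM

open Set

/-- The function `f` is constant near `y`. -/
def Loc {T : Type} (f : Cs → T) (y : Cs) : Prop := ∃ k, ∀ y', (∀ i < k, y' i = y i) → f y' = f y

/-- The function `Ψ` is continuous at `y`, tested on finite strings. -/
def LC (Ψ : Cs → ℕ → ℕ) (y : Cs) : Prop :=
  ∀ n, ∃ k, ∀ u : List Bool, (∀ i < k, pad u i = y i) → Ψ (pad u) n = Ψ y n

/-- Continuity at the point and eventual domination. -/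
def LL (h : ℕ → ℕ) (Ψ : Cs → ℕ → ℕ) (y : Cs) : Prop := LC Ψ y ∧ Lst h (Ψ y)

theorem lc_of_loc {Ψ : Cs → ℕ → ℕ} {y : Cs} (h : ∀ n, Loc (fun z => Ψ z n) y) : LC Ψ y :=
  fun n => let ⟨k, hk⟩ := h n; ⟨k, fun u hu => hk (pad u) hu⟩

theorem LC.shift {Ψ : Cs → ℕ → ℕ} {y : Cs} (h : LC Ψ y) (k : ℕ) :
    LC (fun z n => Ψ z (n + k)) y := fun n => h (n + k)

theorem LC.near {Ψ : Cs → ℕ → ℕ} {y : Cs} (h : LC Ψ y) (n : ℕ) :
    ∃ k, ∀ y', LC Ψ y' → (∀ i < k, y' i = y i) → Ψ y' n = Ψ y n := by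
  obtain ⟨k, hk⟩ := h n
  refine ⟨k, fun y' h' e => ?_⟩
  obtain ⟨k', hk'⟩ := h' n
  rw [← hk' (res (max k k') y') fun i hi => pad_res (hi.trans_le (le_max_right _ _)) _]
  exact hk _ fun i hi => (pad_res (hi.trans_le (le_max_left _ _)) _).trans (e i hi)

theorem meas_lc {α : Type*} [MeasurableSpace α] {Ψ : α → Cs → ℕ → ℕ} {y : α → Cs}
    (h1 : ∀ c, Measurable fun a => Ψ a c) (h2 : Measurable fun a => Ψ a (y a))
    (hy : Measurable y) : Measurable fun a => LC (Ψ a) (y a) :=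
  Measurable.forall fun _ => Measurable.exists fun _ => Measurable.forall fun _ =>
    (Measurable.forall fun _ => measurable_const.imp
      (meas_eq_ctbl measurable_const hy.eval)).imp (meas_eq_ctbl (h1 _).eval h2.eval)

theorem sInf_congr {S T : Set ℕ} (h0 : sInf S ∈ S) (h : ∀ B ≤ sInf S, B ∈ S ↔ B ∈ T) :
    sInf T = sInf S := by
  have h1 : sInf S ∈ T := (h _ le_rfl).1 h0
  have h2 := Nat.sInf_le h1
  exact le_antisymm h2 (Nat.sInf_le ((h _ h2).2 (Nat.sInf_mem ⟨_, h1⟩)))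

theorem loc_fin {T : Type} {f : ℕ → Cs → T} {y : Cs} (h : ∀ n, Loc (f n) y) (m : ℕ) :
    ∃ k, ∀ y', (∀ i < k, y' i = y i) → ∀ n ≤ m, f n y' = f n y := by
  choose k hk using h
  exact ⟨rmx k m, fun y' e n hn => hk n y' fun i hi => e i (hi.trans_le (le_rmx k hn))⟩

theorem rmx_congr {e e' : ℕ → ℕ} {m : ℕ} (h : ∀ n ≤ m, e n = e' n) : rmx e m = rmx e' m :=
  Finset.sup_congr rfl fun n hn => h n (Nat.lt_succ_iff.1 (Finset.mem_range.1 hn))

theorem loc_rmx2 {f : Cs → ℕ → ℕ → ℕ} {y : Cs} (h : ∀ n a, Loc (fun z => f z n a) y) (m : ℕ) :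
    Loc (fun z => rmx2 (f z) m) y := by
  have h1 : ∀ n, Loc (fun z => rmx (f z n) m) y := fun n =>
    let ⟨k, hk⟩ := loc_fin (f := fun a z => f z n a) (h n) m
    ⟨k, fun y' e => rmx_congr (hk y' e)⟩
  obtain ⟨k, hk⟩ := loc_fin (f := fun n z => rmx (f z n) m) h1 m
  exact ⟨k, fun y' e => rmx_congr (hk y' e)⟩

theorem loc_rmx22 {f : Cs → ℕ → ℕ → ℕ} {y : Cs} (h : ∀ n a, Loc (fun z => f z n a) y) (m : ℕ) :
    Loc (fun z => rmx2 (f z) (rmx2 (f z) m)) y := by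
  obtain ⟨k, hk⟩ := loc_rmx2 h m
  obtain ⟨k', hk'⟩ := loc_rmx2 h (rmx2 (f y) m)
  refine ⟨max k k', fun y' e => ?_⟩
  have e1 : rmx2 (f y') m = rmx2 (f y) m := hk y' fun i hi => e i (hi.trans_le (le_max_left _ _))
  show rmx2 (f y') (rmx2 (f y') m) = _
  rw [e1]
  exact hk' y' fun i hi => e i (hi.trans_le (le_max_right _ _))

theorem bnd_false {n : ℕ} {Mk : Cs → Prop} {ok : ℕ → Prop} {Pr : ℕ → Cs → Prop}
    (h : ∀ b, ¬ ok b) : bnd n Mk ok Pr = 0 := by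
  rw [bnd, Nat.sInf_eq_zero]
  rcases Nat.eq_zero_or_pos n with rfl | hn
  · exact Or.inl fun l hl => absurd hl (Nat.not_lt_zero _)
  · refine Or.inr (eq_empty_of_forall_notMem fun B hB => ?_)
    obtain ⟨b, -, h1, -⟩ := hB [] hn (by simp)
    exact h b h1

theorem onc_congr {t t' : Nd} {L L' : Set Cs} {y y' : Cs} (h : Onc t L t' L' y)
    (k : ∀ i < t'.length, y i = y' i) : Onc t L t' L' y' := by
  obtain ⟨n, h1, h2, h3⟩ := h
  refine ⟨n, h1, ?_, h3.congr k⟩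
  have := h2.lt
  rwa [Hit, ← res_eq.2 fun i hi => k i (by omega)]

/-- Moves restricted to valid candidates. -/
def rV (d : Fd) (Vd : ℕ → ℕ → Prop) : Fd := (d.1, fun n a b => Vd n a ∧ d.2.1 n a b, d.2.2)

section
variable {cs : ℕ → Nd × Finset ℕ} {d : Fd} {Vd : ℕ → ℕ → Prop} {e : ℕ → ℕ} {y : Cs}

theorem ph_rV {n a : ℕ} (h : Vd n a) (z : Cs) : Ph cs (rV d Vd) z n a = Ph cs d z n a := by
  simp only [Ph, rV, h, true_and]

theorem ph_spec (hy : BV cs d Vd y) {n a : ℕ} (h : Vd n a) (l : List Cs) (hl : l.length < n)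
    (hs : ∀ v ∈ l, Sep n v y) : ∃ b < Ph cs d y n a,
      (d.2.1 n a b ∧ OnS d.1 (st cs n a) (st cs (n + 1) b) y) ∧
        ∀ v ∈ l, LgS d.1 (st cs n a) (st cs (n + 1) b) v :=
  bnd_spec (n := n) (Mk := fun v => Sep n v y) n
    (fun _ _ h1 ⟨i, h2, h3⟩ => ⟨i, h2, h1 i h2 ▸ h3⟩)
    (ok := fun b => d.2.1 n a b ∧ OnS d.1 (st cs n a) (st cs (n + 1) b) y)
    (Pr := fun b v => LgS d.1 (st cs n a) (st cs (n + 1) b) v)
    (fun b => (cs b).1.length) (fun _ _ _ h1 h2 => Lg.congr h2 h1)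
    (fun l hl hs => hy n a h l hl fun k => let ⟨_, _, k⟩ := hs y k; k rfl) l hl hs

theorem loc_ph (hy : BV cs d Vd y) (n a : ℕ) : Loc (fun z => Ph cs (rV d Vd) z n a) y := by
  by_cases h : Vd n a
  swap
  · exact ⟨0, fun y' _ => (bnd_false fun b k => h k.1.1).trans (bnd_false fun b k => h k.1.1).symm⟩
  simp only [ph_rV h]
  refine ⟨max n (rmx (fun b => (cs b).1.length) (Ph cs d y n a)), fun y' e => ?_⟩
  have e1 : ∀ v, Sep n v y ↔ Sep n v y' := fun v =>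
    exists_congr fun i => and_congr_right fun hi => by rw [e i (hi.trans_le (le_max_left _ _))]
  have e2 : ∀ b ≤ Ph cs d y n a, ∀ i < (cs b).1.length, y' i = y i := fun b hb i hi =>
    e i (hi.trans_le ((le_rmx (fun b => (cs b).1.length) hb).trans (le_max_right _ _)))
  refine sInf_congr (fun l hl hs => ?_) fun B hB => ⟨fun k l hl hs => ?_, fun k l hl hs => ?_⟩
  · obtain ⟨b, h1, h2, h3⟩ := ph_spec hy h (l.map pad) (by simpa using hl) (by simpa using hs)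
    exact ⟨b, h1, h2, fun v hv => h3 _ (List.mem_map_of_mem hv)⟩
  · obtain ⟨b, h1, ⟨h2, h3⟩, h4⟩ := k l hl fun v hv => (e1 _).2 (hs v hv)
    exact ⟨b, h1, ⟨h2, onc_congr h3 fun i hi => (e2 b (h1.le.trans hB) i hi).symm⟩, h4⟩
  · obtain ⟨b, h1, ⟨h2, h3⟩, h4⟩ := k l hl fun v hv => (e1 _).1 (hs v hv)
    exact ⟨b, h1, ⟨h2, onc_congr h3 (e2 b (h1.le.trans hB))⟩, h4⟩

theorem lc_phi (hy : BV cs d Vd y) : LC (Phi cs (rV d Vd)) y :=
  lc_of_loc fun m => loc_rmx22 (f := Ph cs (rV d Vd)) (loc_ph hy) m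

theorem fh_good (H : FH cs d Vd) (hy : BV cs d Vd y) (he : ¬ LL e (Phi cs (rV d Vd)) y) :
    Good (Sig cs d e) y := by
  replace he : ¬ Lst e (Phi cs (rV d Vd) y) := fun k => he ⟨lc_phi hy, k⟩
  intro σ hσ l hl hyl m
  obtain ⟨n, a, h, rfl⟩ := sig_cases hσ
  obtain ⟨k, hk⟩ := exists_sep (List.finite_toSet l) (show y ∉ {v | v ∈ l} from hyl)
  obtain ⟨n', h1, h2⟩ := often_covered (l := lv cs d e) (rmx2_mono (Ph cs (rV d Vd) y)) lv_lt
    (fun n => by rw [lv]; omega) he (max n (max m k))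
  have hl' : l.length < n := hl
  obtain ⟨a', h3, h4, h5⟩ := H.walk h (y :: l) hl' ((le_max_left _ _).trans h1)
  obtain ⟨b, h6, ⟨h7, h8⟩, h9⟩ := ph_spec hy (H.vd h3) l (by omega)
    fun v hv => (hk v hv).mono (by omega)
  have hp := (H.pre _ _ _ h7).1
  refine ⟨_, sig_mem (n := n' + 1) ⟨a', h3, h7, h6.trans_le ?_⟩, h4.trans hp,
    show m ≤ n' + 1 by omega, fun v hv => Lg.trans (h5 v (List.mem_cons_of_mem _ hv)) (h9 v hv) hp,
    Lg.onc (h5 y List.mem_cons_self) h8 h4 hp⟩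
  rw [← ph_rV (H.vd h3)]
  exact (le_rmx2 (Ph cs (rV d Vd) y) (le_lv n') h3.lt.le).trans h2

end

theorem meas_rV {α : Type*} [MeasurableSpace α] {d : α → Fd} {Vd : α → ℕ → ℕ → Prop}
    (hd : Measurable d) (hV : ∀ n a, Measurable fun x => Vd x n a) :
    Measurable fun x => rV (d x) (Vd x) :=
  hd.fst.prodMk ((measurable_pi_lambda _ fun n => measurable_pi_lambda _ fun a =>
    measurable_pi_lambda _ fun _ => (hV n a).and hd.snd.fst.eval.eval.eval).prodMk hd.snd.snd)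

/-- The fusion bound for the master condition. -/
noncomputable def PhD (s : Sy) : Cs → ℕ → ℕ := Phi csD (rV (dD s) (VdD s))

/-- The fusion bound for a promise. -/
noncomputable def PhP (dd : ℕ → ℕ) (x : Qc) (p : Cs) : Cs → ℕ → ℕ :=
  Phi csP (rV (dP dd x p) (VdP x p))

theorem meas_phD {α : Type*} [MeasurableSpace α] {s : α → Sy} {y : α → Cs} (hs : Measurable s)
    (hy : Measurable y) : Measurable fun a => PhD (s a) (y a) :=
  meas_phi _ (meas_rV (meas_dD.comp hs) fun _ _ => hs.snd.fst.eval.and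
    (hs.fst.eval.snd.fst.eval.and measurable_const)) hy

theorem meas_phP {α : Type*} [MeasurableSpace α] (dd : ℕ → ℕ) {x : α → Qc} {p y : α → Cs}
    (hx : Measurable x) (hp : Measurable p) (hy : Measurable y) :
    Measurable fun a => PhP dd (x a) (p a) (y a) := by
  refine meas_phi _ (meas_rV (meas_dP dd hx hp) fun _ _ => hx.snd.fst.eval.and
    (measurable_const.and ?_)) hy
  simp only [forall_LS]
  exact Measurable.forall fun i => measurable_const.imp (meas_sep _ hx.fst.eval hp)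

theorem sh_good {s : Sy} {e : ℕ → ℕ} (H : SH s) {y : Cs} (hy : ∀ i, s.2.1 i → Good' (s.1 i) y)
    (he : ¬ LL e (PhD s) y) : Good' (Sig csD (dD s) e) y := by
  by_cases hc : ∃ i j, (s.1 i).2.2 j = y
  · obtain ⟨i, j, h⟩ := hc
    exact Or.inl ⟨Nat.pair i j, by simpa [Sig, dD, flat] using h⟩
  · exact Or.inr (fh_good H.fh
      (H.bv fun i hi => (hy i hi).resolve_left fun ⟨j, h⟩ => hc ⟨i, j, h⟩) he)

section
variable {dd e : ℕ → ℕ} {x : Qc} {p : Cs}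

theorem pp_good' (hx : Nrm x) (hp : Good x p) (hz : ∀ i, x.1 i ≠ p) {y : Cs} (hy : Good' x y)
    (he : ¬ LL e (PhP dd x p) y) : Good' (Sig csP (dP dd x p) e) y := by
  by_cases hc : y = p
  · exact Or.inl ⟨0, hc.symm⟩
  rcases hy with ⟨i, hi⟩ | hy
  · exact Or.inl ⟨i + 1, hi⟩
  · exact Or.inr (fh_good (pp_fh hx hp hz) (pp_bv hx hp hy hc) he)

theorem loc_nx {r : Nd → Prop} (h : ∀ n, {m | n ≤ m ∧ Hr r p m}.Nonempty) (n : ℕ) :
    Loc (fun z => nx r z n) p := by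
  refine ⟨nx r p n + 1, fun y' k => sInf_congr (Nat.sInf_mem (h n)) fun B hB => ?_⟩
  have : res (B + 1) y' = res (B + 1) p :=
    res_eq.2 fun i hi => k i (hi.trans_le (Nat.succ_le_succ hB))
  simp only [mem_ofPred_eq, Hr, Hit, this]

theorem lc_fr {r : Nd → Prop} (h : ∀ n, {m | n ≤ m ∧ Hr r p m}.Nonempty) : LC (fr r) p := by
  refine lc_of_loc fun n => ?_
  obtain ⟨k, hk⟩ := loc_nx h n
  obtain ⟨k', hk'⟩ := loc_nx h (nx r p n + 1)
  refine ⟨max k k', fun y' e => ?_⟩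
  have e1 : nx r y' n = nx r p n := hk y' fun i hi => e i (hi.trans_le (le_max_left _ _))
  show nx r y' (nx r y' n + 1) = _
  rw [e1]
  exact hk' y' fun i hi => e i (hi.trans_le (le_max_right _ _))

theorem pp_branch' (H : FH csP (dP dd x p) (VdP x p)) (hd : Monotone dd) {r : Nd → Prop}
    (h1 : ∀ u, r u → Tr (Sig csP (dP dd x p) e) u)
    (h2 : ∀ u u', r u → r u' → u <+: u' ∨ u' <+: u) (h3 : ∀ n, ∃ u, r u ∧ n ≤ u.length) :
    LL dd (fr r) p := by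
  refine ⟨lc_fr fun n => ?_, pp_branch H hd h1 h2 h3⟩
  obtain ⟨u, k1, k2⟩ := h3 (rmx (fun a => (cp a).1.length) (lv csP (dP dd x p) e (n + 1)))
  obtain ⟨m, b, k3, k4, k5⟩ := H.front (h1 u k1) (n + 1)
  obtain ⟨a, k6, k7⟩ := reach_down (d := dP dd x p) (Rl := fun a b => (cp a).1 <+: (cp b).1)
    (fun _ => List.prefix_rfl) (fun _ _ _ h1 h2 => h1.trans h2) (fun _ _ _ h => h.2.1) k3 k4
  have k8 : (cp a).1 <+: u := List.prefix_of_prefix_length_le k7 k5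
    ((le_rmx (fun a => (cp a).1.length) k6.lt.le).trans k2)
  obtain ⟨a', j1, ⟨-, -, -, -, i, -, j2, j3, -⟩, -⟩ := k6
  exact ⟨i, (H.len j1).trans j2, u, k1, j3.pre k8⟩

end

section
variable {U : Type 1} {S : Set U} {Ψ : Set U → Cs → ℕ → ℕ} {y : Set U → Cs}

theorem ms_lc (h : Ms2 S Ψ) (hy : Ms S y) : Ms S fun G => LC (Ψ G) (y G) :=
  meas_lc (Ψ := fun G : Fl S => Ψ G.g) (fun c => h.app (ms_const c)) (h.app hy) hy

theorem ms_ll (g : ℕ → ℕ) (h : Ms2 S Ψ) (hy : Ms S y) : Ms S fun G => LL g (Ψ G) (y G) :=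
  (ms_lc h hy).and ((ms_const g).lst (h.app hy))

end

end Pool.Agent.Lib.MP_fecf72_lc.HM
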