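import Pool.Agent.Lib.MP_fecf72_lc.HM.Iter

namespace Pool.Agent.Lib.MP_fecf72_lc.HM

open Set Filter

theorem RR_succ {β r p : U0} (hr : r ∈ PP (sc β)) (hp : p ∈ PP (sc β))
    (h1 : RR β (rs r β) (rs p β))
    (h2 : Frc (RR β) (rs r β) fun G => Qle (qv (dec r β) G) (qv (dec p β) G)) : RR (sc β) r p := by
  refine RR_iff.2 ⟨hr, hp, fun γ hγ => ?_⟩
  rcases (lt_succ.1 hγ).eq_or_lt with rfl | h
  · exact h2
  · have h' : (γ : Lv) < β := WithTop.coe_lt_coe.2 h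
    exact (lec_congr (fun δ hδ => dec_rs_lt ((WithTop.coe_le_coe.2 hδ).trans_lt h'))
      (dec_rs_lt h')).1 ((RR_iff.1 h1).2.2 γ h')

/-- The candidate `κ` handles all tuples coded above `u`. -/
def Cov (β r0 : U0) (D : Set U0) (σ : St) (m : ℕ) (u : List Bool) (s : U0) (κ : U0 × U0 × St) :
    Prop :=
  RR β s (rs κ.1 β) ∧ κ.2.1 ∈ D ∧ RR (sc β) κ.1 κ.2.1 ∧ RR (sc β) κ.1 r0 ∧ σ.1 <+: κ.2.2.1 ∧
    m ≤ κ.2.2.1.length ∧ m ≤ κ.2.2.2.2 ∧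
    (∀ i < σ.2.2, ∀ j < κ.2.2.1.length, Nat.pair i j < u.length) ∧ Frc (RR β) s (CovF β r0 σ u κ)

/-- All tuples are handled. -/
def CovAll (β r0 : U0) (D : Set U0) (σ : St) (m : ℕ) (G : Set U0) : Prop :=
  (qv (dec r0 β) G).2.1 σ → ∀ Y, ∃ L, ∃ s ∈ G, ∃ κ, Cov β r0 D σ m (res L Y) s κ

theorem frc_covAll {β r0 : U0} (h0 : r0 ∈ PP (sc β)) {D : Set U0} (hD : Dn (RR (sc β)) D) (σ : St)
    (m : ℕ) : Frc (RR β) (rs r0 β) (CovAll β r0 D σ m) := by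
  let T : Set U0 → List Bool → Prop := fun G u => ¬ ∃ s ∈ G, ∃ κ, Cov β r0 D σ m u s κ
  have mT : ∀ u, Ms (PP β) fun G => T G u := fun u =>
    (ms_open' _ fun s ⟨_, h⟩ => (fo β).l h.1).not
  have mY : Ms (PP β) fun G => brn (T G) := meas_brn mT
  have ml : Ms (PP β) fun G => col (brn (T G)) := ms_pi fun i => ms_pi fun j => mY.app _
  have m0 := ms_qv (PP.sup h0 (lt_sc β))
  suffices h : Frc (RR β) (rs r0 β) fun G => (qv (dec r0 β) G).2.1 σ →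
      ¬ ∀ L u, res L (brn (T G)) = u → T G u by
    refine h.mono fun G _ _ k h1 Y => ?_
    by_contra hc
    refine k h1 fun L u hu => hu ▸ brn_spec (y := Y) (fun n k => hc ⟨n, k⟩) L
  by_contra hc
  obtain ⟨s1, h1, h2⟩ := Ms.of_not_frc (fo β) (S := PP β) ((m0.st σ).imp
    (ms_all fun L => ms_all fun u => (mY.res L u).imp (mT u)).not) hc
  replace h2 : Frc (RR β) s1 fun G => (qv (dec r0 β) G).2.1 σ ∧
      ∀ L u, res L (brn (T G)) = u → T G u := h2.mono fun G _ _ k => by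
    simpa only [Classical.not_imp, not_not] using k
  have ok0 := (PP.ok h0 (lt_sc β)).le h1
  obtain ⟨r1, h3, h4, h5⟩ := exists_upd' (lt_sc β) h0 h1
    (f := fun G => shr (qv (dec r0 β) G) σ (col (brn (T G))) σ.2.2) (meas_shr m0 ml _ _)
    ((h2.and ok0.1).mono fun G _ _ k => ⟨k.2.to_shr k.1.1 _ le_rfl, shr_le _ _ _ _⟩)
    fun x hx => (ok0.2 x hx).mono fun G _ _ k k' => (k k').to_shr _ _ _
  obtain ⟨d, h6, h7⟩ := hD r1 ((fo _).l h3)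
  have hd := (fo _).l h7
  have h8 : RR β (rs d β) s1 := h4 ▸ RR_rs h7 (lt_sc β).le
  have md := ms_qv (PP.sup hd (lt_sc β))
  have okd := PP.ok hd (lt_sc β)
  have h9 : Frc (RR β) (rs d β) fun G =>
      Qle (qv (dec d β) G) (shr (qv (dec r0 β) G) σ (col (brn (T G))) σ.2.2) :=
    ((h7.lec (lt_sc β)).and (h5.le h8)).mono fun G _ _ k => k.2 ▸ k.1
  obtain ⟨r', k1, k2, k3⟩ := exists_upd' (lt_sc β) hd ((fo β).l h8)
    (f := fun G => rel' (qv (dec r0 β) G) σ (col (brn (T G))) σ.2.2 (qv (dec d β) G))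
    (meas_rel' m0 ml md _ _)
    ((okd.1.and h9).mono fun G _ _ k =>
      ⟨k.1.to_rel (hh_of_le k.2) (LS_finite _ _) (LS_finite _ _), rel_le _ _ _ _⟩)
    fun x hx => ((okd.2 x hx).and h9).mono fun G _ _ k k' => (k.1 k').to_rel (hh_of_le k.2)
  have mr := ms_qv (PP.sup ((fo _).l k1) (lt_sc β))
  obtain ⟨s2, ⟨σ', u⟩, k4, k5⟩ := Frc.ex (S := PP β) (fo β)
    (φ := fun (z : St × List Bool) G => (σ.1 <+: z.1.1 ∧ m ≤ z.1.1.length ∧ m ≤ z.1.2.2 ∧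
      ∀ i < σ.2.2, ∀ j < z.1.1.length, Nat.pair i j < z.2.length) ∧
      res z.2.length (brn (T G)) = z.2 ∧ CovF β r0 σ z.2 (r', d, z.1) G)
    (((okd.1.and h9).and k3).mono fun G _ _ ⟨⟨a1, a2⟩, a3⟩ => by
      obtain ⟨σ', b1, b2, b3, b4, b5⟩ := rel_step a1 a2 m
      obtain ⟨L, hL⟩ := pair_bound σ.2.2 σ'.1.length
      refine ⟨(σ', res L (brn (T G))), ⟨b2, b3, b4, by simpa only [res_len] using hL⟩,
        by simp only [res_len], ?_⟩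
      simp only [CovF, a3]
      exact ⟨b1, fun i hi => (b5 i hi).congr fun j hj => (pad_res (hL i hi j hj) _).symm⟩)
    (fun z => (ms_const _).and (Ms.and (meas_res _ _ mY)
      (Ms.and (Measurable.eval (Measurable.fst (Measurable.snd mr))) (ms_all fun i =>
        (ms_const _).imp (meas_lg _ _ _ _ _ (Measurable.fst m0) (Measurable.fst mr)
          measurable_const))))) ((fo β).l h8)
  obtain ⟨c1, c2, c3, c4⟩ := (k5.mono fun _ _ _ k => k.1).elim (fo β) ((fo β).l k4)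
  have hcov : Cov β r0 D σ m u s2 (r', d, σ') :=
    ⟨k2 ▸ k4, h6, k1, (fo _).tr k1 ((fo _).tr h7 h3), c1, c2, c3, c4, k5.mono fun _ _ _ k => k.2.2⟩
  exact ((k5.and (h2.le ((fo β).tr k4 h8))).mono fun G _ hG k =>
    k.2.2 _ _ k.1.2.1 ⟨s2, hG, _, hcov⟩).elim (fo β) ((fo β).l k4)

theorem club_basic : ∀ᶠ N in Club, (∀ α : Lv, In N α → In N (RR α)) ∧
    (∀ β : U0, In N β → In N (β : Lv)) ∧ (∀ β : U0, In N β → In N (β + 1)) ∧
    (∀ (p : U0) (α : Lv), In N p → In N α → In N (rs p α)) ∧ In N top ∧ In N (0 : U0) ∧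
    (∀ β : U0, In N (β : Lv) → In N β) := by
  filter_upwards [clo1 RR, clo1 fun β : U0 => (β : Lv), clo1 fun β : U0 => β + 1, clo2 rs, clo0 top,
    clo0 (0 : U0), clo1 fun α : Lv => α.untopD 0] with N h1 h2 h3 h4 h5 h6 h7
  exact ⟨h1, h2, h3, h4, h5, h6, fun β h => by simpa using h7 _ h⟩

theorem club_sh : ∀ᶠ N in Club, ∀ β : U0, In N β → ∀ u : ℕ → U0,
    (∀ p, p ∈ PP (sc β) ∧ In N p ↔ p ∈ range u) → ∀ D : ℕ → Set U0,
    (∀ j, In N (D j) ∧ Dn (RR (sc β)) (D j)) → ∀ i0 G, IsF (RR β) G → GenN N (RR β) G →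
      rs (u i0) β ∈ G → SH (sys β u D i0 G) := by
  filter_upwards [club_basic, club_reflect, club_meet',
    clo2 fun (β p : U0) (G : Set U0) => Nrm (qv (dec p β) G),
    clo3' fun (β p q : U0) (G : Set U0) => Qle (qv (dec p β) G) (qv (dec q β) G),
    club_all fun z : St × ℕ => clo3' fun (β r0 : U0) (D : Set U0) => CovAll β r0 D z.1 z.2,
    club_all fun z : St × ℕ × List Bool => clo3' fun (β r0 : U0) (D : Set U0) =>
      {s | ∃ κ, Cov β r0 D z.1 z.2.1 z.2.2 s κ},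
    club_all fun z : St × ℕ × List Bool => sk4 fun (β r0 : U0) (D : Set U0) (s : U0) κ =>
      Cov β r0 D z.1 z.2.1 z.2.2 s κ,
    club_all fun z : St × List Bool => clo3' fun (β r0 : U0) κ => CovF β r0 z.1 z.2 κ,
    clo1 fun κ : U0 × U0 × St => κ.1, clo1 fun κ : U0 × U0 × St => κ.2.1]
    with N ⟨b1, b2, _, b4, _⟩ rf mt c1 c2 c3 c4 c5 c6 c7 c8 β hβ u hu D hD i0 G hG hN h0
  have hR := b1 _ (b2 β hβ)
  have hu' := fun i => (hu (u i)).2 ⟨i, rfl⟩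
  have hrs := fun p hp => b4 p β hp (b2 β hβ)
  refine ⟨h0, fun i hi => rf _ _ _ G hR (hrs _ (hu' i).2) (c1 β _ hβ (hu' i).2)
    (PP.ok (hu' i).1 (lt_sc β)).1 hG hN hi, fun i hi σ hσ j m l hl => ?_⟩
  obtain ⟨L, s, h1, h2⟩ := rf _ _ _ G hR (hrs _ (hu' i).2)
    (c3 (σ, m) β _ _ hβ (hu' i).2 (hD j).1) (frc_covAll (hu' i).1 (hD j).2 σ m) hG hN hi hσ
    fun n => l.getD n.unpair.1 default n.unpair.2
  set v := res L fun n => l.getD n.unpair.1 default n.unpair.2 with hv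
  obtain ⟨s', h3, h4, h5⟩ := mt _ _ G (fo β) hR (c4 (σ, m, v) β _ _ hβ (hu' i).2 (hD j).1) hG hN
    ⟨s, h2, h1⟩
  obtain ⟨κ, h6, k1, k2, k3, k4, k5, k6, k7, k8, k9⟩ :=
    c5 (σ, m, v) β _ _ s' hβ (hu' i).2 (hD j).1 h5 h3
  obtain ⟨i', hi'⟩ := (hu κ.1).1 ⟨(fo _).l k3, c7 κ h6⟩
  obtain ⟨i'', hi''⟩ := (hu κ.2.1).1 ⟨(fo _).r k3, c8 κ h6⟩
  have h7 : rs κ.1 β ∈ G := hG.1 _ h4 _ k1
  obtain ⟨h8, h9⟩ := rf _ _ _ G hR h5 (c6 (σ, v) β _ κ hβ (hu' i).2 h6) k9 hG hN h4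
  refine ⟨i', i'', κ.2.2, ?_⟩
  simp only [sys, hi', hi'']
  refine ⟨h7, ⟨hG.1 _ h7 _ (RR_rs k3 (lt_sc β).le), k2⟩, h8,
    rf _ _ _ G hR (hrs _ (c7 κ h6)) (c2 β _ _ hβ (c7 κ h6) (hu' i).2) (k4.lec (lt_sc β)) hG hN h7,
    rf _ _ _ G hR (hrs _ (c7 κ h6)) (c2 β _ _ hβ (c7 κ h6) (c8 κ h6)) (k3.lec (lt_sc β)) hG hN h7,
    k5, k6, k7, fun y hy => ?_⟩
  obtain ⟨n, hn, rfl⟩ := List.getElem_of_mem hy
  refine (h9 n (hn.trans_le hl)).congr fun j hj => ?_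
  have := k8 n (hn.trans_le hl) j hj
  rw [hv, res_len] at this
  simp [col, hv, pad_res this, hn]

theorem ms_sys {β : U0} {u : ℕ → U0} (hu : ∀ i, u i ∈ PP (sc β)) (D : ℕ → Set U0)
    {ι : Set U0 → ℕ} (hι : Ms (PP β) ι) : Ms (PP β) fun G => sys β u D (ι G) G :=
  have h := fun i => ms_mem (PP_rs (hu i) (lt_sc β).le)
  Ms.prod (ms_pi fun i => ms_qv (PP.sup (hu i) (lt_sc β))) (Ms.prod (ms_pi h)
    (Ms.prod (ms_pi fun _ => ms_pi fun i => (h i).and (ms_const _)) hι))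

theorem club_step : ∀ᶠ N in Club, ∀ β : U0, In N β → ∀ u : ℕ → U0,
    (∀ p, p ∈ PP (sc β) ∧ In N p ↔ p ∈ range u) → ∀ D : ℕ → Set U0,
    (∀ j, In N (D j) ∧ Dn (RR (sc β)) (D j)) → ∀ q ∈ PP β, Frc (RR β) q (GenN N (RR β)) →
    ∀ ι : Set U0 → ℕ, Ms (PP β) ι → (Frc (RR β) q fun G => rs (u (ι G)) β ∈ G) →
      ∃ q' ∈ PP (sc β), rs q' β = q ∧ (Frc (RR (sc β)) q' fun G => u (ι G) ∈ G) ∧
        ∃ bd : Set U0 → ℕ → ℕ, Ms (PP β) bd ∧
          ∀ j, Frc (RR (sc β)) q' fun G => ∃ i ≤ bd G j, u i ∈ G ∧ u i ∈ D j := by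
  filter_upwards [club_sh] with N sh β hβ u hu D hD q hq hN ι hι h0
  have hu' := fun i => ((hu (u i)).2 ⟨i, rfl⟩).1
  have ms := ms_sys hu' D hι
  have md := ms.comp meas_dD
  have H : Frc (RR β) q fun G => SH (sys β u D (ι G) G) :=
    (hN.and h0).mono fun G hG _ k => sh β hβ u hu D hD _ G hG k.1 k.2
  obtain ⟨e, me, he⟩ := (star_XB β).name (fo β)
    (Ψ := fun G => PhD (sys β u D (ι G) G)) (meas_phD ms.fst measurable_snd)
  have hq' := PP_mono (lt_sc β).le hq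
  have e0 : rs q β = q := rs_self hq le_rfl
  obtain ⟨t, h1, h2, h3⟩ := exists_upd' (lt_sc β) hq' (s := q) (e0.symm ▸ hq)
    (f := fun G => Sig csD (dD (sys β u D (ι G) G)) (e G)) (meas_sig _ md me)
    (H.mono fun G _ _ k => ⟨k.fh.nrm, fun σ _ => ⟨σ, by
      rw [PP.empty hq (lt_irrefl _)]; exact qv_empty G σ, List.prefix_rfl⟩⟩)
    fun x hx => ((H.and (he x hx q)).and (frc_all fun i => Frc.of_ev
      ((PP.ok (hu' i) (lt_sc β)).2 x hx))).mono fun G _ _ k k' =>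
        sh_good k.1.1 (fun i hi => k.2 i hi k') (k.1.2 k')
  have ht := (fo _).l h1
  refine ⟨t, ht, h2, frc_of_dense (fo _) fun r hr => ?_, fun G => bdD (sys β u D (ι G) G) (e G),
    meas_bdD ms me, fun j => frc_of_dense (fo _) fun r hr => ?_⟩
  · have k0 : RR β (rs r β) q := h2 ▸ RR_rs hr (lt_sc β).le
    obtain ⟨s, i, k1, k2⟩ := hι.dec_val (fo β) ((fo β).l k0)
    obtain ⟨s', k3, k4⟩ := ((k2.and (h0.le ((fo β).tr k1 k0))).mono fun G _ _ k =>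
      (k.1 ▸ k.2 : rs (u i) β ∈ G)).compat (fo β) ((fo β).l k1)
    have k5 := (fo β).tr k3 k1
    obtain ⟨r2, k6, -, k7, k8⟩ := exists_glue (lt_sc β).le ((fo _).l hr) k5
    have k9 : RR (sc β) r2 (u i) := RR_succ ((fo _).l k6) (hu' i) (k7 ▸ k4) (by
      rw [k7, k8 β (lt_irrefl _)]
      exact ((((hr.lec (lt_sc β)).le k5).and (k2.le k3)).and ((h3.and H).le
        ((fo β).tr k5 k0))).mono fun G _ _ ⟨⟨a1, a2⟩, a3, a4⟩ => by
          have := a4.le (e := e G)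
          rw [← a3, a2] at this
          exact a1.trans this)
    refine ⟨r2, k6, ((frc_mem k9).and (Frc.lift' (lt_sc β).le ((fo _).l k6)
      (φ := fun G => ι G = i) (meas_eq_ctbl hι measurable_const) (k7 ▸ k2.le k3))).mono
      fun G _ _ k => k.2 ▸ k.1⟩
  · have k0 : RR β (rs r β) q := h2 ▸ RR_rs hr (lt_sc β).le
    have hr' := (fo _).l hr
    have mr := ms_qv (PP.sup hr' (lt_sc β))
    have mb : ∀ i, Ms (PP β) fun G => i ≤ bdD (sys β u D (ι G) G) (e G) j := fun i =>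
      meas_le measurable_const (meas_bdD ms me).eval
    obtain ⟨s, ⟨τ, i⟩, k1, k2⟩ := Frc.ex (S := PP β) (fo β)
      (φ := fun (z : St × ℕ) G => (qv (dec r β) G).2.1 z.1 ∧
        z.2 ≤ bdD (sys β u D (ι G) G) (e G) j ∧ (rs (u z.2) β ∈ G ∧ u z.2 ∈ D j) ∧
        Qle (rst (qv (dec r β) G) z.1.1) (qv (dec (u z.2) β) G))
      ((((PP.ok hr' (lt_sc β)).1.and (hr.lec (lt_sc β))).and ((h3.and H).le k0)).mono
        fun G _ _ ⟨⟨a1, a2⟩, a3, a4⟩ => by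
          obtain ⟨τ, i, h⟩ := a4.predense j a1 (a3 ▸ a2)
          exact ⟨(τ, i), h⟩)
      (fun z => Ms.and (Measurable.eval (Measurable.fst (Measurable.snd mr))) ((mb _).and
        (((ms_mem (PP_rs (hu' _) (lt_sc β).le)).and (ms_const _)).and
          (meas_qle (meas_rst mr _) (ms_qv (PP.sup (hu' _) (lt_sc β))))))) ((fo β).l k0)
    obtain ⟨s', k3, k4⟩ := (k2.mono fun G _ _ k => k.2.2.1.1).compat (fo β) ((fo β).l k1)
    obtain ⟨r2, k6, k7, k8⟩ := exists_rst (lt_sc β) hr' ((fo β).tr k3 k1)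
      ((k2.le k3).mono fun G _ _ k => k.1)
    have k9 : RR (sc β) r2 (u i) := RR_succ ((fo _).l k6) (hu' i) (k7 ▸ k4) (by
      rw [k7]
      exact (k8.and (k2.le k3)).mono fun G _ _ k => k.1 ▸ k.2.2.2.2)
    have kD : u i ∈ D j := (k2.mono fun G _ _ k => k.2.2.1.2).elim (fo β) ((fo β).l k1)
    exact ⟨r2, k6, ((frc_mem k9).and (Frc.lift' (lt_sc β).le ((fo _).l k6) (mb i)
      (k7 ▸ (k2.le k3).mono fun G _ _ k => k.2.1))).mono fun G _ _ k => ⟨i, k.2, k.1, kD⟩⟩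

end Pool.Agent.Lib.MP_fecf72_lc.HM
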